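import Pool.Agent.H38.NP.Cook2

/-!
User interface: from `PT` functions to the classes of `Defs`; more closure lemmas; 3SAT.
-/

namespace Pool.Agent.H38.NP

open Function

variable {α β γ δ σ : Type} [Enc α] [Enc β] [Enc γ] [Enc δ] [Enc σ]

/-! ### decoding -/

/-- types with a polynomial-time decoder -/
class Dec (α : Type) [Enc α] where
  dec : Bits → α
  pt : PT dec
  dec_raw : ∀ a, dec (raw a) = a

export Dec (dec)

attribute [fun_prop] Dec.pt
attribute [simp] Dec.dec_raw

instance [Dec α] : EncInj α := ⟨fun a b h => by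
  rw [← Dec.dec_raw a, ← Dec.dec_raw b]; simp only [raw, h]⟩

instance : Dec Bits := ⟨fun x => x, PT.id', fun _ => rfl⟩
instance : Dec Unit := ⟨fun _ => (), PT.const _, fun _ => rfl⟩
instance : Dec Bool := ⟨Bits.hd, PT.bhd, fun _ => rfl⟩
instance : Dec ℕ := ⟨fun x => sz x, PT.sz PT.id', fun n => by simp [raw, sz]⟩
instance [Dec α] [Dec β] : Dec (α × β) :=
  ⟨fun x => (dec x.fst, dec x.snd), by fun_prop, fun p => by
    have h1 : (raw p).fst = raw p.1 := by simp [Bits.fst, raw, enc_prod']
    have h2 : (raw p).snd = raw p.2 := by simp [Bits.snd, raw, enc_prod']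
    rw [h1, h2]; simp⟩

theorem pt_iter_snd : PT fun p : Bits × ℕ => Bits.snd^[p.2] p.1 := by
  refine PT.iterate (step := fun _ (y : Bits) => y.snd) (by fun_prop) (by fun_prop) (by fun_prop)
    (PT.fst PT.id').pb fun p i _ => ?_
  induction i with
  | zero => rfl
  | succ i ih =>
    rw [iterate_succ_apply']
    have h1 := len_ufst_usnd (Bits.snd^[i] p.1).val
    have h2 : (Bits.snd^[i] p.1).val.length ≤ p.1.val.length := ih (by omega)
    change (usnd (Bits.snd^[i] p.1).val).length ≤ p.1.val.length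
    omega

instance [Dec α] : Dec (List α) where
  dec x := (List.range (sz x)).filterMap fun i =>
    cond (Bits.snd^[i] x).isNil none (some (dec (Bits.snd^[i] x).fst))
  pt := PT.filterMap (f := fun x i =>
      cond (Bits.snd^[i] x).isNil none (some (dec (Bits.snd^[i] x).fst)))
    (PT.cond (PT.bisNil.comp pt_iter_snd) (PT.const _)
      (PT.some (Dec.pt.comp (PT.bfst.comp pt_iter_snd)))) (by fun_prop)
  dec_raw l := by
    have e : ∀ i, Bits.snd^[i] (raw l) = raw (l.drop i) := by
      intro i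
      induction i with
      | zero => rfl
      | succ i ih =>
        rw [iterate_succ_apply', ih, ← List.tail_drop]
        cases l.drop i <;> simp [Bits.snd, raw, usnd]
    have e2 : ∀ i, cond (raw (l.drop i)).isNil none (some (dec (raw (l.drop i)).fst)) = l[i]? := by
      intro i
      rw [← List.head?_drop]
      cases l.drop i with
      | nil => rfl
      | cons a r =>
        have h1 : (raw (a :: r)).fst = raw a := by simp [Bits.fst, raw]
        have h2 : (raw (a :: r)).isNil = false := by simp [Bits.isNil, pair]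
        rw [h1, h2]; simp
    simp only [e, e2]
    have e3 : ∀ n, (List.range n).filterMap (fun i => l[i]?) = l.take n := by
      intro n
      induction n with
      | zero => simp
      | succ n ih =>
        rw [List.range_succ, List.filterMap_append, ih, List.take_add_one]
        cases h : l[n]? <;> simp [h]
    rw [e3, List.take_of_length_le]
    exact length_le_sz l

instance [Dec α] : Dec (Option α) :=
  ⟨fun x => (dec x : List α).head?, by fun_prop, fun o => by
    have : raw o = raw o.toList := rfl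
    rw [this, Dec.dec_raw]; cases o <;> rfl⟩

theorem PT.polyTimeOn [Dec α] {g : α → β} (h : PT g) (C : α → Prop) : PolyTimeOn C g :=
  ⟨_, PT.polyTime (f := fun x => NP.raw (g (dec x))) (by fun_prop), fun a _ => by
    have : (⟨enc a⟩ : Bits) = NP.raw a := rfl
    simp [this]⟩

theorem inPOn_of_pt [Dec α] {C P : α → Prop} (d : α → Bool) (hd : PT d)
    (h : ∀ a, C a → (P a ↔ d a = true)) : InPOn C P := by
  obtain ⟨f, hf, e⟩ := hd.polyTimeOn C
  exact ⟨f, hf, fun a ha => by simp [e a ha, h a ha]⟩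

theorem inP_of_pt {L : Set (List Bool)} (d : Bits → Bool) (hd : PT d)
    (h : ∀ x : Bits, x.val ∈ L ↔ d x = true) : InP L := by
  obtain ⟨f, hf, e⟩ := inPOn_of_pt (C := fun _ => True) d hd fun x _ => h x
  exact ⟨f, hf, fun x => e ⟨x⟩ trivial⟩

theorem mem_lang_iff [Dec α] {P : α → Prop} (x : Bits) :
    x.val ∈ lang P ↔ raw (dec x : α) = x ∧ P (dec x) := by
  constructor
  · rintro ⟨a, e, h⟩
    have : x = raw a := by cases x; cases e; rfl
    subst this; simpa using h
  · rintro ⟨e, h⟩
    exact ⟨_, congrArg Bits.val e, h⟩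

theorem enc_mem_lang [EncInj α] {P : α → Prop} (a : α) : enc a ∈ lang P ↔ P a :=
  ⟨fun ⟨_, e, h⟩ => EncInj.inj e ▸ h, fun h => ⟨a, rfl, h⟩⟩

instance : DecidableEq Bits := fun a b =>
  decidable_of_iff (a.val = b.val) ⟨fun h => by cases a; cases b; cases h; rfl, fun h => h ▸ rfl⟩

theorem inP_lang [Dec α] {P : α → Prop} (d : α → Bool) (hd : PT d)
    (h : ∀ a, P a ↔ d a = true) : InP (lang P) :=
  inP_of_pt (fun x => decide (raw (dec x : α) = x) && d (dec x)) (by fun_prop) fun x => by
    simp [mem_lang_iff, h]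

/-- NP membership from a verifier `V` with witnesses of type `β` of size at most `B a`. -/
theorem inNPOn_of_pt [Dec α] [Dec β] {C P : α → Prop} (V : α → β → Bool)
    (hV : PT fun p : α × β => V p.1 p.2) {B : α → ℕ} (hB : PB B)
    (h1 : ∀ a, C a → P a → ∃ w, sz w ≤ B a ∧ V a w = true)
    (h2 : ∀ a w, C a → V a w = true → P a) : InNPOn C P := by
  obtain ⟨q, hq⟩ := hB
  refine ⟨{z | V (dec (Bits.fst ⟨z⟩)) (dec (Bits.snd ⟨z⟩)) = true},
    inP_of_pt (fun x => V (dec x.fst) (dec x.snd))
      (hV.comp (g := fun x : Bits => (dec x.fst, dec x.snd)) (by fun_prop)) fun x => Iff.rfl,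
    q, fun a ha => ⟨fun h => ?_, ?_⟩⟩
  · obtain ⟨w, hw, e⟩ := h1 a ha h
    refine ⟨enc w, hw.trans (hq a), ?_⟩
    have h1 : Bits.fst ⟨pair (enc a) (enc w)⟩ = raw a := by simp [Bits.fst, raw]
    have h2 : Bits.snd ⟨pair (enc a) (enc w)⟩ = raw w := by simp [Bits.snd, raw]
    simpa [h1, h2] using e
  · rintro ⟨w, -, e⟩
    have h1 : Bits.fst ⟨pair (enc a) w⟩ = raw a := by simp [Bits.fst, raw]
    simp only [Set.mem_ofPred_eq, h1, Dec.dec_raw] at e
    exact h2 a _ ha e

theorem inNP_lang [Dec α] [Dec β] {P : α → Prop} (V : α → β → Bool)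
    (hV : PT fun p : α × β => V p.1 p.2) {B : α → ℕ} (hB : PB B)
    (h1 : ∀ a, P a → ∃ w, sz w ≤ B a ∧ V a w = true)
    (h2 : ∀ a w, V a w = true → P a) : InNP (lang P) := by
  obtain ⟨q, hq⟩ := hB
  have := inNPOn_of_pt (C := fun _ : Bits => True) (P := fun x => x.val ∈ lang P)
    (fun x (w : β) => decide (raw (dec x : α) = x) && V (dec x) w)
    (PT.and (by fun_prop) (hV.comp (g := fun p : Bits × β => (dec p.1, p.2)) (by fun_prop)))
    (PB.sz.eval q) (fun x _ hx => by
      obtain ⟨e, hP⟩ := (mem_lang_iff x).1 hx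
      obtain ⟨w, hw, hv⟩ := h1 _ hP
      refine ⟨w, hw.trans ((hq _).trans (le_of_eq ?_)), by simp [e, hv]⟩
      conv_rhs => rw [← e]
      rfl)
    (fun x w _ hv => by
      simp only [Bool.and_eq_true, decide_eq_true_eq] at hv
      exact (mem_lang_iff x).2 ⟨hv.1, h2 _ _ hv.2⟩)
  obtain ⟨R, hR, p, h⟩ := this
  exact ⟨R, hR, p, fun x => h ⟨x⟩ trivial⟩

/-- coNP membership of `lang P` from a verifier for `¬ P`. -/
theorem inCoNP_lang [Dec α] [Dec β] {P : α → Prop} (V : α → β → Bool)
    (hV : PT fun p : α × β => V p.1 p.2) {B : α → ℕ} (hB : PB B)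
    (h1 : ∀ a, ¬ P a → ∃ w, sz w ≤ B a ∧ V a w = true)
    (h2 : ∀ a w, V a w = true → ¬ P a) : InCoNP (lang P) := by
  obtain ⟨q, hq⟩ := hB
  have := inNPOn_of_pt (C := fun _ : Bits => True) (P := fun x => x.val ∈ (lang P)ᶜ)
    (fun x (w : Bits) => !decide (raw (dec x : α) = x) || V (dec x) (dec w))
    (PT.or (by fun_prop) (hV.comp (g := fun p : Bits × Bits => (dec p.1, dec p.2)) (by fun_prop)))
    (PB.sz.eval q) (fun x _ hx => by
      by_cases e : raw (dec x : α) = x
      · have hP : ¬ P (dec x) := fun h => hx ((mem_lang_iff x).2 ⟨e, h⟩)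
        obtain ⟨w, hw, hv⟩ := h1 _ hP
        refine ⟨raw w, hw.trans ((hq _).trans (le_of_eq ?_)), by simp [hv]⟩
        conv_rhs => rw [← e]
        rfl
      · exact ⟨⟨[]⟩, Nat.zero_le _, by simp [e]⟩)
    (fun x w _ hv hx => by
      obtain ⟨e, hP⟩ := (mem_lang_iff x).1 hx
      simp only [e, decide_true, Bool.not_true, Bool.false_or] at hv
      exact h2 _ _ hv hP)
  obtain ⟨R, hR, p, h⟩ := this
  exact ⟨R, hR, p, fun x => h ⟨x⟩ trivial⟩

/-! ### hardness -/

theorem NPH.reduce {C P : α → Prop} {C' P' : β → Prop} (h : NPH C P) (f : α → β) (hf : PT f)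
    (e : ∀ a, C a → C' (f a) ∧ (P a ↔ P' (f a))) : NPH C' P' := fun A hA =>
  let ⟨g, hg, hx⟩ := h A hA
  ⟨fun x => f (g x), hf.comp hg, fun x => ⟨(e _ (hx x).1).1, (hx x).2.trans (e _ (hx x).1).2⟩⟩

theorem NPH.npHardOn {C P : α → Prop} (h : NPH C P) : NPHardOn C P := fun A hA =>
  let ⟨g, hg, hx⟩ := h A hA
  ⟨_, PT.polyTime hg.raw, fun x => ⟨g ⟨x⟩, rfl, hx ⟨x⟩⟩⟩

theorem NPH.coNPHardOn {C P : α → Prop} (h : NPH C fun a => ¬ P a) : CoNPHardOn C P := fun A hA =>
  let ⟨g, hg, hx⟩ := h Aᶜ hA
  ⟨_, PT.polyTime hg.raw, fun x => ⟨g ⟨x⟩, rfl, (hx ⟨x⟩).1, not_iff_not.1 (hx ⟨x⟩).2⟩⟩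

theorem NPH.npHard [EncInj α] {C P Q : α → Prop} (h : NPH C P) (e : ∀ a, C a → (P a ↔ Q a)) :
    NPHard (lang Q) := fun A hA =>
  let ⟨g, hg, hx⟩ := h A hA
  ⟨_, PT.polyTime hg.raw, fun x => by
    rw [raw_val, enc_mem_lang, ← e _ (hx ⟨x⟩).1]; exact (hx ⟨x⟩).2⟩

theorem NPH.coNPHard [EncInj α] {C P Q : α → Prop} (h : NPH C P) (e : ∀ a, C a → (P a ↔ ¬ Q a)) :
    CoNPHard (lang Q) := fun A hA =>
  let ⟨g, hg, hx⟩ := h Aᶜ hA
  ⟨_, PT.polyTime hg.raw, fun x => by
    rw [raw_val, enc_mem_lang, ← not_iff_not, ← e _ (hx ⟨x⟩).1]; exact (hx ⟨x⟩).2⟩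

/-! ### more closure lemmas -/

@[fun_prop] theorem PT.decide_bool {f : α → Bool} (hf : PT f) : PT fun a => decide (f a = true) :=
  hf.of_eq (by simp)
@[fun_prop] theorem PT.decide_and {p q : α → Prop} [DecidablePred p] [DecidablePred q]
    (hp : PT fun a => decide (p a)) (hq : PT fun a => decide (q a)) :
    PT fun a => decide (p a ∧ q a) := (hp.and hq).of_eq (by simp)
@[fun_prop] theorem PT.decide_or {p q : α → Prop} [DecidablePred p] [DecidablePred q]
    (hp : PT fun a => decide (p a)) (hq : PT fun a => decide (q a)) :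
    PT fun a => decide (p a ∨ q a) := (hp.or hq).of_eq (by simp)
@[fun_prop] theorem PT.decide_not {p : α → Prop} [DecidablePred p]
    (hp : PT fun a => decide (p a)) : PT fun a => decide (¬ p a) := hp.not.of_eq (by simp)
@[fun_prop] theorem PT.ne [EncInj β] [DecidableEq β] {f g : α → β} (hf : PT f) (hg : PT g) :
    PT fun a => decide (f a ≠ g a) := (PT.eq hf hg).not.of_eq (by simp)
@[fun_prop] theorem PT.ge {f g : α → ℕ} (hf : PT f) (hg : PT g) : PT fun a => decide (f a ≥ g a) :=
  PT.le hg hf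
@[fun_prop] theorem PT.gt {f g : α → ℕ} (hf : PT f) (hg : PT g) : PT fun a => decide (f a > g a) :=
  PT.lt hg hf
@[fun_prop] theorem PT.contains [EncInj β] [BEq β] [LawfulBEq β] {l : α → List β} {x : α → β}
    (hl : PT l) (hx : PT x) : PT fun a => (l a).contains (x a) :=
  (PT.any (f := fun a y => x a == y) (by fun_prop) hl).of_eq fun a => by
    rw [List.contains_eq_any_beq]
@[fun_prop] theorem PT.mem [EncInj β] [BEq β] [LawfulBEq β] {l : α → List β} {x : α → β}
    (hl : PT l) (hx : PT x) : PT fun a => decide (x a ∈ l a) :=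
  (PT.contains hl hx).of_eq fun a => by simp
@[fun_prop] theorem PT.count [EncInj β] [BEq β] [LawfulBEq β] {l : α → List β} {x : α → β}
    (hx : PT x) (hl : PT l) : PT fun a => (l a).count (x a) :=
  (PT.countP (f := fun a y => y == x a) (by fun_prop) hl).of_eq fun a => rfl
@[fun_prop] theorem PT.max {f g : α → ℕ} (hf : PT f) (hg : PT g) : PT fun a => max (f a) (g a) :=
  (hf.add (hg.sub hf)).of_eq fun a => by omega
@[fun_prop] theorem PT.min {f g : α → ℕ} (hf : PT f) (hg : PT g) : PT fun a => min (f a) (g a) :=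
  (hf.sub (hf.sub hg)).of_eq fun a => by omega
@[fun_prop] theorem PT.div {f g : α → ℕ} (hf : PT f) (hg : PT g) : PT fun a => f a / g a := by
  have : PT fun a => _root_.cond (decide (g a = 0)) 0
      ((List.range (f a)).countP fun k => decide ((k + 1) * g a ≤ f a)) := by fun_prop
  refine this.of_eq fun a => ?_
  by_cases h : g a = 0
  · simp [h]
  · have hp : 0 < g a := Nat.pos_of_ne_zero h
    have e : ∀ n, (List.range n).countP (fun k => decide ((k + 1) * g a ≤ f a))
        = Min.min n (f a / g a) := by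
      intro n
      induction n with
      | zero => simp
      | succ n ih =>
        rw [List.range_succ, List.countP_append, ih]
        simp only [List.countP_singleton, decide_eq_true_eq, ← Nat.le_div_iff_mul_le hp]
        split_ifs <;> omega
    simp [h, e, Nat.div_le_self]
@[fun_prop] theorem PT.mod {f g : α → ℕ} (hf : PT f) (hg : PT g) : PT fun a => f a % g a :=
  (hf.sub (hg.mul (hf.div hg))).of_eq fun a => (Nat.mod_def _ _).symm
@[fun_prop] theorem PT.dvd {f g : α → ℕ} (hf : PT f) (hg : PT g) : PT fun a => decide (f a ∣ g a) :=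
  (PT.eq (hg.mod hf) (PT.const 0)).of_eq fun a => by simp [Nat.dvd_iff_mod_eq_zero]
@[fun_prop] theorem PT.toNat {f : α → Bool} (hf : PT f) : PT fun a => (f a).toNat :=
  (PT.cond hf (PT.const 1) (PT.const 0)).of_eq fun a => rfl
@[fun_prop] theorem PT.optMap {o : α → Option β} {s : α → β → γ}
    (hs : PT fun p : α × β => s p.1 p.2) (ho : PT o) : PT fun a => (o a).map (s a) :=
  (PT.elim (s := fun a b => Option.some (s a b)) ho (PT.const none) hs.some).of_eq fun a => by
    cases o a <;> rfl
@[fun_prop] theorem PT.optBind {o : α → Option β} {s : α → β → Option γ} (ho : PT o)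
    (hs : PT fun p : α × β => s p.1 p.2) : PT fun a => (o a).bind (s a) :=
  (PT.elim ho (PT.const none) hs).of_eq fun a => by cases o a <;> rfl
@[fun_prop] theorem PT.find? {f : α → β → Bool} {l : α → List β}
    (hf : PT fun p : α × β => f p.1 p.2) (hl : PT l) : PT fun a => (l a).find? (f a) :=
  (PT.filter hf hl).head?.of_eq fun a => by simp
@[fun_prop] theorem PT.zipWith {f : α → β → γ → δ} {l : α → List β} {l' : α → List γ}
    (hf : PT fun p : α × β × γ => f p.1 p.2.1 p.2.2) (hl : PT l) (hl' : PT l') :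
    PT fun a => List.zipWith (f a) (l a) (l' a) := by
  have h1 : PT fun p : (α × ℕ) × β => ((l' p.1.1)[p.1.2]?).map (f p.1.1 p.2) :=
    PT.optMap (s := fun (p : (α × ℕ) × β) y => f p.1.1 p.2 y)
      (hf.comp (g := fun p : ((α × ℕ) × β) × γ => (p.1.1.1, p.1.2, p.2)) (by fun_prop))
      (by fun_prop)
  have h2 : PT fun p : α × ℕ => ((l p.1)[p.2]?).bind fun x => ((l' p.1)[p.2]?).map (f p.1 x) :=
    PT.optBind (s := fun (p : α × ℕ) x => ((l' p.1)[p.2]?).map (f p.1 x)) (by fun_prop) h1
  refine (PT.filterMap (f := fun a (i : ℕ) => ((l a)[i]?).bind fun x => ((l' a)[i]?).map (f a x))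
    h2 hl.length.range).of_eq fun a => ?_
  generalize l a = u, l' a = v
  induction u generalizing v with
  | nil => simp
  | cons x u ih =>
    cases v with
    | nil => simp
    | cons y v =>
      rw [List.length_cons, List.range_succ_eq_map, List.filterMap_cons]
      simp [List.filterMap_map, Function.comp_def, ih]
@[fun_prop] theorem PT.zip {l : α → List β} {l' : α → List γ} (hl : PT l) (hl' : PT l') :
    PT fun a => List.zip (l a) (l' a) :=
  PT.zipWith (f := fun _ => Prod.mk) (by fun_prop) hl hl'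
@[fun_prop] theorem PT.zipIdx {l : α → List β} (hl : PT l) : PT fun a => (l a).zipIdx :=
  (hl.zip hl.length.range).of_eq fun a => by
    rw [List.zipIdx_eq_zip_range', List.range_eq_range']
@[fun_prop] theorem PT.product {l : α → List β} {l' : α → List γ} (hl : PT l) (hl' : PT l') :
    PT fun a => List.product (l a) (l' a) := by unfold List.product; fun_prop
@[fun_prop] theorem PT.findIdx {f : α → β → Bool} {l : α → List β}
    (hf : PT fun p : α × β => f p.1 p.2) (hl : PT l) : PT fun a => (l a).findIdx (f a) := by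
  have h : PT fun p : α × ℕ => ((l p.1).take (p.2 + 1)).all fun x => !f p.1 x :=
    PT.all (f := fun (p : α × ℕ) x => !f p.1 x)
      (hf.comp (g := fun p : (α × ℕ) × β => (p.1.1, p.2)) (by fun_prop)).not (by fun_prop)
  refine (PT.countP (f := fun a (i : ℕ) => ((l a).take (i + 1)).all fun x => !f a x) h
    hl.length.range).of_eq fun a => ?_
  generalize l a = u
  induction u with
  | nil => simp
  | cons x u ih =>
    rw [List.length_cons, List.range_succ_eq_map, List.countP_cons, List.countP_map,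
      List.findIdx_cons]
    cases hx : f a x
    · simp [Function.comp_def, hx, ih]
    · simp [Function.comp_def, hx]
@[fun_prop] theorem PT.idxOf [EncInj β] [BEq β] [LawfulBEq β] {l : α → List β} {x : α → β}
    (hx : PT x) (hl : PT l) : PT fun a => (l a).idxOf (x a) :=
  PT.findIdx (f := fun a y => y == x a) (by fun_prop) hl
@[fun_prop] theorem PT.nodup [EncInj β] [DecidableEq β] {l : α → List β} (hl : PT l) :
    PT fun a => decide (l a).Nodup :=
  (PT.all (f := fun a x => decide ((l a).count x ≤ 1)) (by fun_prop) hl).of_eq fun a => by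
    rw [Bool.eq_iff_iff]
    simp only [List.all_eq_true, decide_eq_true_eq, List.nodup_iff_count_le_one]
    exact ⟨fun h x => if hx : x ∈ l a then h x hx else by simp [List.count_eq_zero_of_not_mem hx],
      fun h x _ => h x⟩
@[fun_prop] theorem PT.getLast? {l : α → List β} (hl : PT l) : PT fun a => (l a).getLast? :=
  hl.reverse.head?.of_eq fun a => by simp
@[fun_prop] theorem PT.range' {s n : α → ℕ} (hs : PT s) (hn : PT n) :
    PT fun a => List.range' (s a) (n a) :=
  (PT.map (f := fun a i => s a + i) (by fun_prop) hn.range).of_eq fun a => by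
    rw [List.range'_eq_map_range]

theorem PT.foldr {f : α → β → σ → σ} (hf : PT fun p : α × β × σ => f p.1 p.2.1 p.2.2)
    {l : α → List β} (hl : PT l) {init : α → σ} (hi : PT init) {B : α → ℕ} (hB : PB B)
    (hb : ∀ a k, NP.sz (((l a).drop k).foldr (f a) (init a)) ≤ B a) :
    PT fun a => (l a).foldr (f a) (init a) :=
  (PT.foldl (f := fun a s x => f a x s)
    (hf.comp (g := fun p : α × σ × β => (p.1, p.2.2, p.2.1)) (by fun_prop)) hl.reverse hi hB
    fun a k => by
      rw [List.take_reverse, List.foldl_reverse]; exact hb a _).of_eq fun a => by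
    rw [List.foldl_reverse]

/-! ### 3SAT -/

abbrev Lit := ℕ × Bool

def Lit.ev (a : ℕ → Bool) (l : Lit) : Prop := a l.1 = l.2

/-- 3SAT: lists of triples of literals (repetitions allowed) -/
def Sat3 (φ : List (Lit × Lit × Lit)) : Prop :=
  ∃ a : ℕ → Bool, ∀ C ∈ φ, a C.1.1 = C.1.2 ∨ a C.2.1.1 = C.2.1.2 ∨ a C.2.2.1 = C.2.2.2

def chain (c : ℕ) (C : List Lit) : List (Lit × Lit × Lit) :=
  ((Nat.pair (c + 1) 0, true), (Nat.pair (c + 1) 0, true), (Nat.pair (c + 1) 0, true)) ::
  ((Nat.pair (c + 1) C.length, false), (Nat.pair (c + 1) C.length, false),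
    (Nat.pair (c + 1) C.length, false)) ::
  C.zipIdx.map fun l => ((Nat.pair (c + 1) l.2, false), (Nat.pair 0 l.1.1, l.1.2),
    (Nat.pair (c + 1) (l.2 + 1), true))

theorem sat3_nph : NPH (fun _ : List (Lit × Lit × Lit) => True) Sat3 := by
  refine sat_nph.reduce (fun φ => φ.zipIdx.flatMap fun C => chain C.2 C.1)
    (by unfold chain; fun_prop) fun φ _ => ⟨trivial, ?_, ?_⟩
  · rintro ⟨a, ha⟩
    classical
    refine ⟨fun n => if n.unpair.1 = 0 then a n.unpair.2 else
      decide (∃ l ∈ (φ.getD (n.unpair.1 - 1) []).drop n.unpair.2, a l.1 = l.2), fun T hT => ?_⟩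
    simp only [List.mem_flatMap, chain, List.mem_cons, List.mem_map, Prod.exists,
      List.mem_zipIdx_iff_getElem?] at hT
    obtain ⟨C, c, hC, hT⟩ := hT
    have e : φ.getD c [] = C := by simp [hC]
    rcases hT with rfl | rfl | ⟨v, b, j, hj, rfl⟩
    · have := ha C (List.mem_of_getElem? hC)
      simpa [-List.getD_eq_getElem?_getD, e] using this
    · simp [-List.getD_eq_getElem?_getD, e]
    · obtain ⟨hj', e'⟩ := List.getElem?_eq_some_iff.1 hj
      simp only [Nat.unpair_pair, Nat.add_one_ne_zero, if_false, Nat.add_sub_cancel, e, if_true,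
        List.drop_eq_getElem_cons hj', e', List.mem_cons, exists_eq_or_imp, decide_eq_false_iff_not,
        decide_eq_true_eq]
      tauto
  · rintro ⟨a, ha⟩
    refine ⟨fun v => a (Nat.pair 0 v), fun C hC => ?_⟩
    obtain ⟨c, hc⟩ := List.mem_iff_getElem?.1 hC
    have h : ∀ T ∈ chain c C, _ := fun T hT => ha T (List.mem_flatMap.2
      ⟨(C, c), List.mem_zipIdx_iff_getElem?.2 hc, hT⟩)
    by_contra hn
    push Not at hn
    have : ∀ j ≤ C.length, a (Nat.pair (c + 1) j) = true := by
      intro j hj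
      induction j with
      | zero => simpa using h _ List.mem_cons_self
      | succ j ih =>
        have h1 := h _ (List.mem_cons_of_mem _ (List.mem_cons_of_mem _ (List.mem_map.2
          ⟨(C[j], j), List.mem_zipIdx_iff_getElem?.2 (by simp), rfl⟩)))
        have h2 := hn _ (List.getElem_mem hj)
        simpa [ih (by omega), h2] using h1
    have h1 := h _ (List.mem_cons_of_mem _ List.mem_cons_self)
    simp [this _ le_rfl] at h1

end Pool.Agent.H38.NP
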