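import Pool.Agent.H38.NP.Graphs

/-!
Graphs whose vertices are listed tuples.
-/

namespace Pool.Agent.H38.NP

variable {T : Type}

def tgE (Vs : List T) (r : T → T → Bool) (d : T) : List (ℕ × ℕ) :=
  edgesOf Vs.length fun u v => r (Vs.getD u d) (Vs.getD v d)

theorem PT.tgE {α : Type} [Enc α] [Enc T] {Vs : α → List T} {r : α → T → T → Bool} (d : T)
    (hV : PT Vs) (h : PT fun p : α × T × T => r p.1 p.2.1 p.2.2) :
    PT fun a => tgE (Vs a) (r a) d :=
  PT.edgesOf (by fun_prop) (h.comp (g := fun p : α × ℕ × ℕ =>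
    (p.1, (Vs p.1).getD p.2.1 d, (Vs p.1).getD p.2.2 d)) (by fun_prop))

def TA (r : T → T → Bool) (x y : T) : Prop := x ≠ y ∧ (r x y = true ∨ r y x = true)

theorem TA.symm {r : T → T → Bool} {x y} (h : TA r x y) : TA r y x := ⟨h.1.symm, h.2.symm⟩

theorem tg_spec {Vs : List T} (hn : Vs.Nodup) (r : T → T → Bool) (d : T) :
    ∃ e : Fin Vs.length → T, Function.Injective e ∧ (∀ x, x ∈ Vs ↔ ∃ u, e u = x) ∧
      ∀ u v, (graphOf Vs.length (tgE Vs r d)).Adj u v ↔ TA r (e u) (e v) := by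
  have inj : Function.Injective fun u : Fin Vs.length => Vs[u] := fun u v h =>
    Fin.ext ((List.Nodup.getElem_inj_iff hn).1 h)
  refine ⟨fun u => Vs[u], inj, fun x => ⟨fun h => ?_, ?_⟩, fun u v => ?_⟩
  · obtain ⟨i, hi, rfl⟩ := List.getElem_of_mem h; exact ⟨⟨i, hi⟩, rfl⟩
  · rintro ⟨u, rfl⟩; exact List.getElem_mem _
  · rw [tgE, graphOf_edgesOf_adj, List.getD_eq_getElem _ _ u.2, List.getD_eq_getElem _ _ v.2]
    exact and_congr ⟨fun h e => h (congrArg Fin.val (inj e)), fun h e => h (by rw [Fin.ext e])⟩ Iff.rfl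

end Pool.Agent.H38.NP
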