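import Pool.Agent.H38.NP.Api

/-!
Helpers for graph instances, and NP-hardness of independent set.
-/

namespace Pool.Agent.H38.NP

/-- the list of pairs below `n` satisfying `adj` -/
def edgesOf (n : ℕ) (adj : ℕ → ℕ → Bool) : List (ℕ × ℕ) :=
  (List.range n).flatMap fun u => ((List.range n).filter fun v => adj u v).map fun v => (u, v)

theorem mem_edgesOf {n adj u v} : (u, v) ∈ edgesOf n adj ↔ u < n ∧ v < n ∧ adj u v = true := by
  simp [edgesOf]

theorem graphOf_adj {n E} {u v : Fin n} :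
    (graphOf n E).Adj u v ↔ u ≠ v ∧ ((u.val, v.val) ∈ E ∨ (v.val, u.val) ∈ E) := by
  simp [graphOf, SimpleGraph.fromRel_adj]

theorem graphOf_edgesOf_adj {n adj} {u v : Fin n} :
    (graphOf n (edgesOf n adj)).Adj u v ↔ u.val ≠ v.val ∧ (adj u v = true ∨ adj v u = true) := by
  simp [graphOf_adj, mem_edgesOf, Fin.ext_iff]

theorem PT.edgesOf {α : Type} [Enc α] {n : α → ℕ} {adj : α → ℕ → ℕ → Bool} (hn : PT n)
    (h : PT fun p : α × ℕ × ℕ => adj p.1 p.2.1 p.2.2) : PT fun a => edgesOf (n a) (adj a) := by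
  unfold NP.edgesOf
  refine PT.flatMap (PT.map (by fun_prop) (PT.filter (f := fun (p : α × ℕ) v => adj p.1 p.2 v) ?_
    (by fun_prop))) (by fun_prop)
  exact h.comp (g := fun p : (α × ℕ) × ℕ => (p.1.1, p.1.2, p.2)) (by fun_prop)

/-- independent sets of the graph given by `n` and `E`, as finite sets of numbers -/
def IndepN (n : ℕ) (E : List (ℕ × ℕ)) (S : Finset ℕ) : Prop :=
  (∀ v ∈ S, v < n) ∧ ∀ u ∈ S, ∀ v ∈ S, u ≠ v → (u, v) ∉ E

def litAt (φ : List (Lit × Lit × Lit)) (u : ℕ) : Lit :=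
  if u % 3 = 0 then (φ.getD (u / 3) default).1
  else if u % 3 = 1 then (φ.getD (u / 3) default).2.1 else (φ.getD (u / 3) default).2.2

@[fun_prop] theorem pt_litAt {α : Type} [Enc α] {φ : α → List (Lit × Lit × Lit)} {u : α → ℕ}
    (hφ : PT φ) (hu : PT u) : PT fun a => litAt (φ a) (u a) := by
  unfold litAt; fun_prop

theorem sat3_iff_litAt (φ : List (Lit × Lit × Lit)) : Sat3 φ ↔
    ∃ a : ℕ → Bool, ∀ c < φ.length, ∃ j < 3, a (litAt φ (3 * c + j)).1 = (litAt φ (3 * c + j)).2 := by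
  refine exists_congr fun a => ?_
  have e : ∀ c (hc : c < φ.length), (∃ j < 3, a (litAt φ (3 * c + j)).1 = (litAt φ (3 * c + j)).2) ↔
      a φ[c].1.1 = φ[c].1.2 ∨ a φ[c].2.1.1 = φ[c].2.1.2 ∨ a φ[c].2.2.1 = φ[c].2.2.2 := by
    intro c hc
    have e0 : litAt φ (3 * c + 0) = φ[c].1 := by simp [litAt, hc]
    have e1 : litAt φ (3 * c + 1) = φ[c].2.1 := by
      simp [litAt, hc, Nat.add_mod, show (3 * c + 1) / 3 = c by omega]
    have e2 : litAt φ (3 * c + 2) = φ[c].2.2 := by
      simp [litAt, hc, Nat.add_mod, show (3 * c + 2) / 3 = c by omega]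
    rw [← e0, ← e1, ← e2]
    constructor
    · rintro ⟨j, hj, h⟩
      interval_cases j <;> simp only [h, true_or, or_true]
    · rintro (h | h | h)
      exacts [⟨0, by omega, h⟩, ⟨1, by omega, h⟩, ⟨2, by omega, h⟩]
  constructor
  · intro h c hc
    exact (e c hc).2 (h _ (List.getElem_mem hc))
  · intro h C hC
    obtain ⟨c, hc, rfl⟩ := List.getElem_of_mem hC
    exact (e c hc).1 (h c hc)

/-- Independent set is NP-hard, even when the independence number is promised to be at most `k`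
and `n = 3 k`. -/
theorem indep_nph : NPH
    (fun p : ℕ × List (ℕ × ℕ) × ℕ => p.1 = 3 * p.2.2 ∧ ∀ S, IndepN p.1 p.2.1 S → S.card ≤ p.2.2)
    (fun p => ∃ S, IndepN p.1 p.2.1 S ∧ S.card = p.2.2) := by
  refine sat3_nph.reduce (fun φ => (3 * φ.length, edgesOf (3 * φ.length) (fun u v =>
      decide (u / 3 = v / 3) || (decide ((litAt φ u).1 = (litAt φ v).1) &&
        decide ((litAt φ u).2 ≠ (litAt φ v).2))), φ.length))
    (PT.mk (by fun_prop) (PT.mk (PT.edgesOf (by fun_prop) (by fun_prop)) (by fun_prop)))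
    fun φ _ => ?_
  have hinj : ∀ S, IndepN (3 * φ.length) (edgesOf (3 * φ.length) (fun u v =>
      decide (u / 3 = v / 3) || (decide ((litAt φ u).1 = (litAt φ v).1) &&
        decide ((litAt φ u).2 ≠ (litAt φ v).2)))) S →
      Set.InjOn (· / 3) (S : Set ℕ) ∧ S.image (· / 3) ⊆ Finset.range φ.length := by
    rintro S ⟨h1, h2⟩
    refine ⟨fun u hu v hv e => ?_, fun c hc => ?_⟩
    · by_contra hne
      exact h2 u hu v hv hne (mem_edgesOf.2 ⟨h1 u hu, h1 v hv, by simp [show u / 3 = v / 3 from e]⟩)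
    · obtain ⟨u, hu, rfl⟩ := Finset.mem_image.1 hc
      have := h1 u hu
      simp; omega
  refine ⟨⟨rfl, fun S hS => ?_⟩, ?_⟩
  · obtain ⟨h1, h2⟩ := hinj S hS
    simpa [Finset.card_image_of_injOn h1] using Finset.card_le_card h2
  rw [sat3_iff_litAt]
  constructor
  · rintro ⟨a, ha⟩
    choose! j hj using ha
    refine ⟨(Finset.range φ.length).image fun c => 3 * c + j c, ⟨fun v hv => ?_, ?_⟩, ?_⟩
    · obtain ⟨c, hc, rfl⟩ := Finset.mem_image.1 hv
      have hc' := Finset.mem_range.1 hc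
      have := (hj c hc').1
      simp only; omega
    · intro u hu v hv hne h
      obtain ⟨c, hc, rfl⟩ := Finset.mem_image.1 hu
      obtain ⟨d, hd, rfl⟩ := Finset.mem_image.1 hv
      obtain ⟨h1, h2⟩ := hj c (Finset.mem_range.1 hc)
      obtain ⟨h3, h4⟩ := hj d (Finset.mem_range.1 hd)
      have := (mem_edgesOf.1 h).2.2
      simp only [Bool.or_eq_true, Bool.and_eq_true, decide_eq_true_eq] at this
      rcases this with h | ⟨h5, h6⟩
      · have : c = d := by omega
        exact hne (by rw [this])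
      · exact h6 (by rw [← h2, ← h4, h5])
    · rw [Finset.card_image_of_injOn, Finset.card_range]
      intro c hc d hd e
      have := (hj c (by simpa using hc)).1
      have := (hj d (by simpa using hd)).1
      simp only at e; omega
  · rintro ⟨S, hS, hc⟩
    classical
    obtain ⟨h1, h2⟩ := hinj S hS
    have h3 : S.image (· / 3) = Finset.range φ.length :=
      Finset.eq_of_subset_of_card_le h2 (by simpa [Finset.card_image_of_injOn h1] using hc.ge)
    refine ⟨fun x => decide (∃ u ∈ S, litAt φ u = (x, true)), fun c hc => ?_⟩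
    obtain ⟨u, hu, e⟩ := Finset.mem_image.1 (h3 ▸ Finset.mem_range.2 hc)
    refine ⟨u % 3, Nat.mod_lt _ (by omega), ?_⟩
    rw [show 3 * c + u % 3 = u by omega]
    cases hb : (litAt φ u).2
    · simp only [decide_eq_false_iff_not]
      rintro ⟨v, hv, e'⟩
      have hne : u ≠ v := by rintro rfl; rw [e'] at hb; simp at hb
      exact hS.2 u hu v hv hne (mem_edgesOf.2 ⟨hS.1 u hu, hS.1 v hv, by simp [e', hb]⟩)
    · simp only [decide_eq_true_eq]
      exact ⟨u, hu, by rw [← hb]⟩

end Pool.Agent.H38.NP
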