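import Pool.Agent.H36.Sig2

/-!
NP is closed under polynomial-time many-one reductions.
-/

namespace Pool.Agent.H38.NP

theorem inNP_of_reduces {A B : Set (List Bool)} (h : Reduces A B) (hB : InNP B) : InNP A := by
  obtain ⟨f, hf, h⟩ := h
  obtain ⟨R, ⟨g, hg, hR⟩, p, hB⟩ := hB
  have f1 := (H36.Sim.pt_of_polyTime hf).bval
  have f2 : PT fun x : Bits => p.eval (f x.val).length := PT.polyEval p f1.length
  have f3 : PT fun q : Bits × Bits => Bits.mk (pair (f q.1.val) q.2.val) := by
    have h0 : PT fun q : List Bool × Bits => Bits.mk (pair q.1 q.2.val) := by unfold pair; fun_prop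
    exact h0.comp ((f1.comp (g := fun q : Bits × Bits => q.1) (by fun_prop)).mk (by fun_prop))
  have f4 := ((H36.Sim.pt_of_polyTime hg).comp f3).bval
  obtain ⟨R', hR', q, e⟩ := inNPOn_of_pt (C := fun _ : Bits => True) (P := fun x => x.val ∈ A)
    (fun x (w : Bits) => decide (w.val.length ≤ p.eval (f x.val).length) &&
      decide (g (pair (f x.val) w.val) = [true]))
    (PT.and (PT.le (by fun_prop) (f2.comp (g := fun q : Bits × Bits => q.1) (by fun_prop)))
      (PT.eq f4 (PT.const _))) f2.nat_pb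
    (fun x _ hx => by
      obtain ⟨w, h1, h2⟩ := (hB _).1 ((h _).1 hx)
      exact ⟨⟨w⟩, h1, by simp [h1, ← hR, h2]⟩)
    (fun x w _ hv => by
      simp only [Bool.and_eq_true, decide_eq_true_eq] at hv
      exact (h _).2 ((hB _).2 ⟨_, hv.1, (hR _).2 hv.2⟩))
  exact ⟨R', hR', q, fun x => e ⟨x⟩ trivial⟩

theorem inCoNP_of_reduces {A B : Set (List Bool)} (h : Reduces A B) (hB : InCoNP B) : InCoNP A :=
  let ⟨f, hf, e⟩ := h
  inNP_of_reduces (B := Bᶜ) ⟨f, hf, fun x => not_congr (e x)⟩ hB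

end Pool.Agent.H38.NP
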