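import Pool.Agent.H38.NP.PT

/-!
The Cook-Levin theorem for the machine model of Mathlib.
-/

namespace Pool.Agent.H38.NP

open Function Turing Turing.TM2

abbrev CNF (V : Type) := List (List (V × Bool))

def Sat {V : Type} (φ : CNF V) : Prop := ∃ a : V → Bool, ∀ C ∈ φ, ∃ l ∈ C, a l.1 = l.2

def ren {V W : Type} (r : V → W) (φ : CNF V) : CNF W := φ.map fun C => C.map fun l => (r l.1, l.2)

theorem sat_ren {V W : Type} (r : V → W) (φ : CNF V) (s : W → V)
    (h : ∀ C ∈ φ, ∀ l ∈ C, s (r l.1) = l.1) : Sat (ren r φ) ↔ Sat φ := by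
  constructor
  · rintro ⟨a, ha⟩
    refine ⟨fun v => a (r v), fun C hC => ?_⟩
    obtain ⟨l, hl, e⟩ := ha _ (List.mem_map_of_mem hC)
    obtain ⟨l', hl', rfl⟩ := List.mem_map.1 hl
    exact ⟨l', hl', e⟩
  · rintro ⟨a, ha⟩
    refine ⟨fun w => a (s w), fun C' hC' => ?_⟩
    obtain ⟨C, hC, rfl⟩ := List.mem_map.1 hC'
    obtain ⟨l, hl, e⟩ := ha C hC
    exact ⟨_, List.mem_map_of_mem hl, by simpa [h C hC l hl] using e⟩

/-- template literal: time offset, position offset, shift flag, atom, sign -/
abbrev TL (A : Type) := ℕ × ℕ × Bool × A × Bool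

def inst {A : Type} (t i : ℕ) (C : List (TL A)) : List ((ℕ × ℕ × A) × Bool) :=
  C.map fun l => ((t + l.1, cond l.2.2.1 i 0 + l.2.1, l.2.2.2.1), l.2.2.2.2)

def sel {B : Type} (I0 I1 IW IB : B) (y : List Bool) (q i : ℕ) : B :=
  cond (decide (i < y.length)) (cond (y.getD i false) I1 I0)
    (cond (decide (i < y.length + q)) IW IB)

def build {A : Type} (TT IC I0 I1 IW IB FIN : List (List (TL A))) (y : List Bool) (q T N : ℕ) :
    CNF (ℕ × ℕ × A) :=
  (List.range T).flatMap (fun t => (List.range N).flatMap fun i => TT.map (inst t i)) ++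
  ((List.range N).flatMap (fun i => (IC ++ sel I0 I1 IW IB y q i).map (inst 0 i)) ++
  FIN.map (inst T 0))

def mapT {A B : Type} (c : A → B) (TT : List (List (TL A))) : List (List (TL B)) :=
  TT.map fun C => C.map fun l => (l.1, l.2.1, l.2.2.1, c l.2.2.2.1, l.2.2.2.2)

theorem ren_build {A B : Type} (c : A → B) (TT IC I0 I1 IW IB FIN : List (List (TL A))) (y q T N) :
    ren (fun v : ℕ × ℕ × A => (v.1, v.2.1, c v.2.2)) (build TT IC I0 I1 IW IB FIN y q T N) =
      build (mapT c TT) (mapT c IC) (mapT c I0) (mapT c I1) (mapT c IW) (mapT c IB) (mapT c FIN)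
        y q T N := by
  have e : ∀ i, sel (mapT c I0) (mapT c I1) (mapT c IW) (mapT c IB) y q i
      = mapT c (sel I0 I1 IW IB y q i) := by
    intro i; unfold sel
    cases decide (i < y.length) <;> cases y.getD i false <;> cases decide (i < y.length + q) <;> rfl
  simp only [build, e]
  simp [ren, mapT, inst, List.map_flatMap, Function.comp_def]

theorem mem_build {A : Type} {TT IC I0 I1 IW IB FIN : List (List (TL A))} {y q T N C} :
    C ∈ build TT IC I0 I1 IW IB FIN y q T N ↔
      (∃ t < T, ∃ i < N, ∃ C' ∈ TT, inst t i C' = C) ∨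
      (∃ i < N, ∃ C', (C' ∈ IC ∨ C' ∈ sel I0 I1 IW IB y q i) ∧ inst 0 i C' = C) ∨
      (∃ C' ∈ FIN, inst T 0 C' = C) := by
  simp only [build, List.mem_append, List.mem_flatMap, List.mem_range, List.mem_map]

theorem pt_build {α : Type} [Enc α] (TT IC I0 I1 IW IB FIN : List (List (TL ℕ)))
    {y : α → List Bool} {q T N : α → ℕ} (hy : PT y) (hq : PT q) (hT : PT T) (hN : PT N) :
    PT fun a => build TT IC I0 I1 IW IB FIN (y a) (q a) (T a) (N a) := by
  unfold build sel inst
  fun_prop

@[fun_prop] theorem PT.pow {α : Type} [Enc α] {f : α → ℕ} (k : ℕ) (hf : PT f) :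
    PT fun a => f a ^ k := by
  induction k with
  | zero => exact (PT.const 1).of_eq (by simp)
  | succ k ih => exact (ih.mul hf).of_eq fun a => (pow_succ _ _).symm

theorem PT.polyEval {α : Type} [Enc α] {f : α → ℕ} (q : Polynomial ℕ) (hf : PT f) :
    PT fun a => q.eval (f a) := by
  induction q using Polynomial.induction_on' with
  | add p q hp hq => exact (hp.add hq).of_eq (by simp)
  | monomial n c => exact ((PT.const c).mul (hf.pow n)).of_eq (by simp)

@[fun_prop] theorem PT.natPair {α : Type} [Enc α] {f g : α → ℕ} (hf : PT f) (hg : PT g) :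
    PT fun a => Nat.pair (f a) (g a) := by
  unfold Nat.pair
  fun_prop

section Machine

variable {K : Type} [DecidableEq K] {Γ : K → Type} {Λ σ : Type}

def depth : Stmt Γ Λ σ → ℕ
  | .push _ _ q => depth q + 1
  | .peek _ _ q => depth q + 1
  | .pop _ _ q => depth q + 1
  | .load _ q => depth q
  | .branch _ q q' => max (depth q) (depth q')
  | .goto _ => 0
  | .halt => 0

def ext (c : Cfg Γ Λ σ) (R : ∀ k, List (Γ k)) : Cfg Γ Λ σ := ⟨c.l, c.var, fun k => c.stk k ++ R k⟩

theorem stepAux_local (q : Stmt Γ Λ σ) (v : σ) (W R : ∀ k, List (Γ k))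
    (h : ∀ k, depth q ≤ (W k).length ∨ R k = []) :
    stepAux q v (fun k => W k ++ R k) = ext (stepAux q v W) R := by
  induction q generalizing v W with
  | push k f q ih =>
    simp only [stepAux]
    rw [← ih v (update W k (f v :: W k))]
    · congr 1
      funext k'
      by_cases e : k' = k
      · subst e; simp
      · simp [update_of_ne e]
    · intro k'
      rcases h k' with h | h
      · left
        by_cases e : k' = k
        · subst e; simp [depth] at h ⊢; omega
        · simp [update_of_ne e, depth] at h ⊢; omega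
      · exact Or.inr h
  | peek k f q ih =>
    simp only [stepAux]
    have : (W k ++ R k).head? = (W k).head? := by
      rcases h k with h | h
      · cases hW : W k with
        | nil => simp [hW, depth] at h
        | cons => simp
      · simp [h]
    rw [this]
    exact ih _ W fun k' => (h k').imp_left fun h => by simp [depth] at h; omega
  | pop k f q ih =>
    simp only [stepAux]
    have h1 : (W k ++ R k).head? = (W k).head? ∧ (W k ++ R k).tail = (W k).tail ++ R k := by
      rcases h k with h | h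
      · cases hW : W k with
        | nil => simp [hW, depth] at h
        | cons => simp
      · simp [h]
    rw [h1.1, h1.2, ← ih _ (update W k (W k).tail)]
    · congr 1
      funext k'
      by_cases e : k' = k
      · subst e; simp
      · simp [update_of_ne e]
    · intro k'
      rcases h k' with h | h
      · left
        by_cases e : k' = k
        · subst e; simp [depth] at h ⊢; omega
        · simp [update_of_ne e, depth] at h ⊢; omega
      · exact Or.inr h
  | load f q ih => exact ih _ W h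
  | branch f q q' ih ih' =>
    simp only [stepAux]
    cases f v
    · exact ih' v W fun k => (h k).imp_left fun h => (le_max_right _ _).trans h
    · exact ih v W fun k => (h k).imp_left fun h => (le_max_left _ _).trans h
  | goto f => rfl
  | halt => rfl

def syms : Stmt Γ Λ σ → Set (Σ k, Γ k)
  | .push k f q => Set.range (fun v => ⟨k, f v⟩) ∪ syms q
  | .peek _ _ q => syms q
  | .pop _ _ q => syms q
  | .load _ q => syms q
  | .branch _ q q' => syms q ∪ syms q'
  | .goto _ => ∅
  | .halt => ∅

omit [DecidableEq K] in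
theorem syms_finite [Finite σ] (q : Stmt Γ Λ σ) : (syms q).Finite := by
  induction q with
  | push k f q ih => exact (Set.finite_range _).union ih
  | branch f q q' ih ih' => exact ih.union ih'
  | goto => exact Set.finite_empty
  | halt => exact Set.finite_empty
  | _ => assumption

def Good (G : Set (Σ k, Γ k)) (S : ∀ k, List (Γ k)) : Prop := ∀ k, ∀ a ∈ S k, ⟨k, a⟩ ∈ G

theorem good_stepAux {G : Set (Σ k, Γ k)} (q : Stmt Γ Λ σ) (hq : syms q ⊆ G) (v : σ)
    (S : ∀ k, List (Γ k)) (h : Good G S) : Good G (stepAux q v S).stk := by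
  induction q generalizing v S with
  | push k f q ih =>
    refine ih (fun x hx => hq (Or.inr hx)) _ _ fun k' a ha => ?_
    by_cases e : k' = k
    · subst e
      simp only [update_self, List.mem_cons] at ha
      rcases ha with rfl | ha
      · exact hq (Or.inl ⟨v, rfl⟩)
      · exact h _ _ ha
    · rw [update_of_ne e] at ha; exact h _ _ ha
  | peek k f q ih => exact ih hq _ _ h
  | pop k f q ih =>
    refine ih hq _ _ fun k' a ha => ?_
    by_cases e : k' = k
    · subst e
      simp only [update_self] at ha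
      exact h _ _ (List.mem_of_mem_tail ha)
    · rw [update_of_ne e] at ha; exact h _ _ ha
  | load f q ih => exact ih hq _ _ h
  | branch f q q' ih ih' =>
    simp only [stepAux]
    cases f v
    · exact ih' (fun x hx => hq (Or.inr hx)) _ _ h
    · exact ih (fun x hx => hq (Or.inl hx)) _ _ h
  | goto f => exact h
  | halt => exact h

variable (M : Λ → Stmt Γ Λ σ)

def nxt (c : Cfg Γ Λ σ) : Cfg Γ Λ σ := (TM2.step M c).getD c

def win (D : ℕ) (c : Cfg Γ Λ σ) : Cfg Γ Λ σ := ⟨c.l, c.var, fun k => (c.stk k).take D⟩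

theorem nxt_win {D : ℕ} (hD : ∀ l, depth (M l) ≤ D) (c : Cfg Γ Λ σ) :
    nxt M c = ext (nxt M (win D c)) fun k => (c.stk k).drop D := by
  obtain ⟨l, v, S⟩ := c
  cases l with
  | none => simp [nxt, win, ext]
  | some l =>
    simp only [nxt, win, TM2.step, Option.getD_some]
    rw [← stepAux_local]
    · simp
    · intro k
      by_cases h : D ≤ (S k).length
      · left; simp [h, hD l]
      · right; simp; omega

theorem good_nxt {G : Set (Σ k, Γ k)} (hG : ∀ l, syms (M l) ⊆ G) (c : Cfg Γ Λ σ)
    (h : Good G c.stk) : Good G (nxt M c).stk := by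
  obtain ⟨l, v, S⟩ := c
  cases l with
  | none => exact h
  | some l => exact good_stepAux _ (hG l) _ _ h

theorem iter_nxt {n : ℕ} {c c' : Cfg Γ Λ σ}
    (h : (flip bind (TM2.step M))^[n] (some c) = some c') : (nxt M)^[n] c = c' := by
  induction n generalizing c with
  | zero => simpa using h
  | succ n ih =>
    rw [iterate_succ_apply] at h ⊢
    cases e : TM2.step M c with
    | none =>
      have : ∀ n, (flip bind (TM2.step M))^[n] none = none := fun n => iterate_fixed rfl n
      simp only [flip, bind, Option.bind, e] at h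
      erw [this] at h; simp at h
    | some d =>
      simp only [flip, bind, Option.bind, e] at h
      have : nxt M c = d := by simp [nxt, e]
      rw [this]; exact ih h

theorem iter_nxt_le {n T : ℕ} (hT : n ≤ T) {c c' : Cfg Γ Λ σ} (hc : c'.l = none)
    (h : (flip bind (TM2.step M))^[n] (some c) = some c') : (nxt M)^[T] c = c' := by
  obtain ⟨d, rfl⟩ := Nat.exists_eq_add_of_le hT
  rw [Nat.add_comm, iterate_add_apply, iter_nxt M h]
  apply iterate_fixed
  obtain ⟨l, v, S⟩ := c'
  cases hc
  rfl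

theorem finite_lists {α : Type} {S : Set α} (hS : S.Finite) (D : ℕ) :
    {l : List α | l.length ≤ D ∧ ∀ a ∈ l, a ∈ S}.Finite := by
  induction D with
  | zero => exact (Set.finite_singleton []).subset fun l hl => by simpa using hl.1
  | succ D ih =>
    refine ((Set.finite_singleton []).union ((hS.prod ih).image fun p => p.1 :: p.2)).subset ?_
    rintro (_ | ⟨a, l⟩) ⟨h1, h2⟩
    · simp
    · right
      exact ⟨(a, l), ⟨h2 a (by simp), by simpa using h1, fun b hb => h2 b (by simp [hb])⟩, rfl⟩

def Wins (G : Set (Σ k, Γ k)) (D : ℕ) : Set (Cfg Γ Λ σ) :=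
  {ω | Good G ω.stk ∧ ∀ k, (ω.stk k).length ≤ D}

omit [DecidableEq K] in
theorem wins_finite [Finite K] [Finite Λ] [Finite σ] {G : Set (Σ k, Γ k)} (hG : G.Finite) (D : ℕ) :
    (Wins (Λ := Λ) (σ := σ) G D).Finite := by
  have h1 : ∀ k, {l : List (Γ k) | l.length ≤ D ∧ ∀ a ∈ l, a ∈ Sigma.mk k ⁻¹' G}.Finite :=
    fun k => finite_lists (hG.preimage sigma_mk_injective.injOn) D
  have h2 := Set.Finite.pi' h1
  refine (((Set.finite_univ (α := Option Λ × σ)).prod h2).image
    fun p => (⟨p.1.1, p.1.2, p.2⟩ : Cfg Γ Λ σ)).subset ?_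
  rintro ⟨l, v, S⟩ ⟨h, h'⟩
  exact ⟨((l, v), S), ⟨trivial, fun k => ⟨h' k, h k⟩⟩, rfl⟩

abbrev Atom (Γ : K → Type) (Λ σ : Type) := (Σ k, Option (Γ k)) ⊕ (Option Λ × σ) ⊕ Cfg Γ Λ σ

def X (k : K) (o : Option (Γ k)) : Atom Γ Λ σ := Sum.inl ⟨k, o⟩
def Z (c : Cfg Γ Λ σ) : Atom Γ Λ σ := Sum.inr (Sum.inl (c.l, c.var))
def Y (c : Cfg Γ Λ σ) : Atom Γ Λ σ := Sum.inr (Sum.inr c)

def Holds (D : ℕ) (c : Cfg Γ Λ σ) (i : ℕ) : Atom Γ Λ σ → Prop
  | Sum.inl ⟨k, o⟩ => (c.stk k)[i]? = o
  | Sum.inr (Sum.inl s) => (c.l, c.var) = s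
  | Sum.inr (Sum.inr ω) => win D c = ω

def GoodO (G : Set (Σ k, Γ k)) (k : K) : Set (Option (Γ k)) := {o | ∀ a ∈ o, ⟨k, a⟩ ∈ G}

omit [DecidableEq K] in
theorem goodO_finite {G : Set (Σ k, Γ k)} (hG : G.Finite) (k : K) : (GoodO G k).Finite := by
  refine ((Set.finite_singleton none).union
    ((hG.preimage (sigma_mk_injective (i := k)).injOn).image some)).subset ?_
  rintro (_ | a) h
  · simp
  · exact Or.inr ⟨a, h a rfl, rfl⟩

omit [DecidableEq K] in
theorem goodO_get {G : Set (Σ k, Γ k)} {S : ∀ k, List (Γ k)} (h : Good G S) (k : K) (i : ℕ) :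
    (S k)[i]? ∈ GoodO G k := fun a ha => h k a (List.mem_of_getElem? ha)

def T1 (ks : List K) (D : ℕ) (ω : Cfg Γ Λ σ) : List (TL (Atom Γ Λ σ)) :=
  (0, 0, false, Y ω, true) :: (0, 0, false, Z ω, false) ::
    ks.flatMap fun k => (List.range D).map fun j => (0, j, false, X k (ω.stk k)[j]?, false)

def TTs (ks : List K) (G : Set (Σ k, Γ k)) (D : ℕ) : Set (List (TL (Atom Γ Λ σ))) :=
  ⋃ ω ∈ Wins G D, {T1 ks D ω, [(0, 0, false, Y ω, false), (1, 0, false, Z (nxt M ω), true)]} ∪
    ⋃ k, ((⋃ j ∈ {j | j < ((nxt M ω).stk k).length},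
      {[(0, 0, false, Y ω, false), (1, j, false, X k ((nxt M ω).stk k)[j]?, true)]}) ∪
    ⋃ o ∈ GoodO G k, {[(0, 0, false, Y ω, false), (0, D, true, X k o, false),
        (1, ((nxt M ω).stk k).length, true, X k o, true)]})

theorem tts_finite [Finite K] [Finite Λ] [Finite σ] (ks : List K) {G : Set (Σ k, Γ k)}
    (hG : G.Finite) (D : ℕ) : (TTs M ks G D).Finite :=
  (wins_finite hG D).biUnion fun _ _ => (Set.toFinite _).union <| Set.finite_iUnion fun k =>
    ((Set.finite_lt_nat _).biUnion fun _ _ => Set.finite_singleton _).union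
      ((goodO_finite hG k).biUnion fun _ _ => Set.finite_singleton _)

/-- the true computation satisfies all transition clauses -/
theorem tts_complete {ks : List K} (hks : ∀ k, k ∈ ks) {G : Set (Σ k, Γ k)} {D : ℕ}
    (hD : ∀ l, depth (M l) ≤ D) (c : ℕ → Cfg Γ Λ σ) (a : ℕ × ℕ × Atom Γ Λ σ → Bool)
    (ha : ∀ t i x, a (t, i, x) = true ↔ Holds D (c t) i x) (t i : ℕ) (hc : c (t + 1) = nxt M (c t))
    (C : List (TL (Atom Γ Λ σ))) (hC : C ∈ TTs M ks G D) : ∃ l ∈ inst t i C, a l.1 = l.2 := by
  have ha' : ∀ t i x, a (t, i, x) = false ↔ ¬ Holds D (c t) i x := fun t i x => by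
    rw [← ha]; simp
  simp only [TTs, Set.mem_iUnion, Set.mem_union, Set.mem_insert_iff, Set.mem_singleton_iff,
    Set.mem_setOf_eq] at hC
  obtain ⟨ω, hω, hC⟩ := hC
  by_contra hn
  push Not at hn
  have hn' := nxt_win M hD (c t)
  rcases hC with (rfl | rfl) | ⟨k, ⟨j, hj, rfl⟩ | ⟨o, ho, rfl⟩⟩
  · simp only [inst, T1, List.map_cons, List.mem_cons, forall_eq_or_imp, ne_eq, ha, ha', cond_false,
      Nat.add_zero, not_not, List.mem_map, List.mem_flatMap, List.mem_range] at hn
    obtain ⟨h1, h2, h3⟩ := hn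
    apply h1
    obtain ⟨l, v, S⟩ := ω
    simp only [Holds, Y, Z, Prod.mk.injEq, win] at h2 ⊢
    rw [h2.1, h2.2]
    congr 1
    funext k
    apply List.ext_getElem?
    intro j
    by_cases hj : j < D
    · have := h3 _ ⟨_, ⟨k, hks k, j, hj, rfl⟩, rfl⟩
      simp only [cond_false, Nat.add_zero, Nat.zero_add, ha', not_not, Holds, X] at this
      rw [List.getElem?_take_of_lt hj, this]
    · have := hω.2 k
      simp only at this
      rw [List.getElem?_eq_none (by simp; omega), List.getElem?_eq_none (by omega)]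
  · simp only [inst, List.map_cons, List.mem_cons, forall_eq_or_imp, ne_eq, ha, ha', cond_false,
      Nat.add_zero, not_not, Holds, Y, Z] at hn
    obtain ⟨h1, h2, -⟩ := hn
    apply h2
    rw [hc, hn', h1]; rfl
  · simp only [inst, List.map_cons, List.mem_cons, forall_eq_or_imp, ne_eq, ha, ha', cond_false,
      Nat.add_zero, Nat.zero_add, not_not, Holds, Y, X] at hn
    obtain ⟨h1, h2, -⟩ := hn
    apply h2
    rw [hc, hn', h1]
    simp only [ext]
    rw [List.getElem?_append_left hj]
  · simp only [inst, List.map_cons, List.mem_cons, forall_eq_or_imp, ne_eq, ha, ha', cond_false,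
      cond_true, Nat.add_zero, Nat.zero_add, not_not, Holds, Y, X] at hn
    obtain ⟨h1, h2, h3, -⟩ := hn
    apply h3
    rw [hc, hn', h1]
    simp only [ext]
    rw [List.getElem?_append_right (by omega), ← h2]
    simp [Nat.add_comm]

/-- any assignment satisfying the transition clauses contains the true computation -/
theorem tts_sound {ks : List K} {G : Set (Σ k, Γ k)} {D N : ℕ}
    (hD : ∀ l, depth (M l) ≤ D) (c : Cfg Γ Λ σ) (hc : Good G c.stk)
    (a : ℕ × ℕ × Atom Γ Λ σ → Bool) (t B : ℕ) (hB : B + D ≤ N)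
    (h : ∀ i < N, ∀ C ∈ TTs M ks G D, ∃ l ∈ inst t i C, a l.1 = l.2) (hN : 0 < N)
    (hZ : a (t, 0, Z c) = true) (hX : ∀ k, ∀ i < B + D, a (t, i, X k (c.stk k)[i]?) = true) :
    a (t + 1, 0, Z (nxt M c)) = true ∧
      ∀ k, ∀ i < B, a (t + 1, i, X k ((nxt M c).stk k)[i]?) = true := by
  have hω : win D c ∈ Wins G D :=
    ⟨fun k x hx => hc k x (List.mem_of_mem_take hx), fun k => List.length_take_le _ _⟩
  simp only [TTs, Set.mem_iUnion, Set.mem_union, Set.mem_insert_iff, Set.mem_singleton_iff,
    Set.mem_setOf_eq] at h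
  have hY : a (t, 0, Y (win D c)) = true := by
    obtain ⟨l, hl, e⟩ := h 0 hN _ ⟨_, hω, Or.inl (Or.inl rfl)⟩
    simp only [inst, T1, List.map_cons, List.mem_cons, cond_false, Nat.add_zero, List.mem_map,
      List.mem_flatMap, List.mem_range] at hl
    rcases hl with rfl | rfl | ⟨_, ⟨k, -, j, hj, rfl⟩, rfl⟩
    · exact e
    · exact absurd (hZ.symm.trans e) (by simp)
    · have := hX k j (by omega)
      simp only [cond_false, Nat.add_zero, Nat.zero_add, win, List.getElem?_take_of_lt hj] at e
      exact absurd (this.symm.trans e) (by simp)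
  have hn' := nxt_win M hD c
  refine ⟨?_, fun k i hi => ?_⟩
  · obtain ⟨l, hl, e⟩ := h 0 hN _ ⟨_, hω, Or.inl (Or.inr rfl)⟩
    simp only [inst, List.map_cons, List.mem_cons, cond_false, Nat.add_zero, List.map_nil,
      List.not_mem_nil, or_false] at hl
    rcases hl with rfl | rfl
    · exact absurd (hY.symm.trans e) (by simp)
    · rw [hn']; exact e
  · by_cases hj : i < ((nxt M (win D c)).stk k).length
    · obtain ⟨l, hl, e⟩ := h 0 hN _ ⟨_, hω, Or.inr ⟨k, Or.inl ⟨i, hj, rfl⟩⟩⟩
      simp only [inst, List.map_cons, List.mem_cons, cond_false, Nat.add_zero, List.map_nil,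
        List.not_mem_nil, or_false, Nat.zero_add] at hl
      rcases hl with rfl | rfl
      · exact absurd (hY.symm.trans e) (by simp)
      · rw [hn']; simp only [ext]; rw [List.getElem?_append_left hj]; exact e
    · obtain ⟨i', rfl⟩ := Nat.exists_eq_add_of_le (not_lt.1 hj)
      obtain ⟨l, hl, e⟩ := h i' (by omega) _
        ⟨_, hω, Or.inr ⟨k, Or.inr ⟨_, goodO_get hc k (i' + D), rfl⟩⟩⟩
      simp only [inst, List.map_cons, List.mem_cons, cond_false, cond_true, Nat.add_zero,
        List.map_nil, List.not_mem_nil, or_false, Nat.zero_add] at hl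
      rcases hl with rfl | rfl | rfl
      · exact absurd (hY.symm.trans e) (by simp)
      · exact absurd ((hX k _ (by omega)).symm.trans e) (by simp)
      · have : ((nxt M c).stk k)[((nxt M (win D c)).stk k).length + i']? = (c.stk k)[i' + D]? := by
          conv_lhs => rw [hn']
          simp only [ext]
          rw [List.getElem?_append_right (by omega)]
          simp [Nat.add_comm]
        rw [this, Nat.add_comm _ i']; exact e

end Machine

end Pool.Agent.H38.NP
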