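import Pool.Agent.H36.Gr

/-!
Four-colouring is NP-hard; powers of two.
-/

namespace Pool.Agent.H38.NP

open Pool.Agent.H36.Gr

def Col4 (E : List (ℕ × ℕ)) : Prop := ∃ c : ℕ → Bool × Bool, ∀ e ∈ E, c e.1 ≠ c e.2

def lv (v : ℕ) (b : Bool) : ℕ := 4 + 2 * (2 * v + b.toNat)

def qv (c j : ℕ) : ℕ := 5 + 2 * (4 * c + j)

def c4E (φ : F3) : List (ℕ × ℕ) :=
  [(0, 1), (0, 2), (0, 3), (1, 2), (1, 3), (2, 3)] ++
  (List.range (3 * φ.length)).flatMap (fun u =>
    [(lv (litAt φ u).1 false, lv (litAt φ u).1 true), (lv (litAt φ u).1 false, 2),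
      (lv (litAt φ u).1 false, 3), (lv (litAt φ u).1 true, 2), (lv (litAt φ u).1 true, 3),
      (qv (u / 3) (u % 3), lv (litAt φ u).1 (litAt φ u).2)]) ++
  (List.range φ.length).flatMap fun c => [(qv c 0, qv c 1), (qv c 0, qv c 2), (qv c 0, qv c 3),
    (qv c 1, qv c 2), (qv c 1, qv c 3), (qv c 2, qv c 3), (qv c 3, 1)]

theorem col4_nph : NPH (fun E => ∀ e ∈ E, e.1 ≠ e.2) Col4 := by
  refine sat3_nph.reduce c4E (by unfold c4E lv qv; fun_prop) fun φ _ => ⟨?_, ?_⟩
  · simp only [c4E, List.forall_mem_append, List.forall_mem_flatMap, List.forall_mem_cons,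
      List.mem_range, List.not_mem_nil, IsEmpty.forall_iff, implies_true, and_true, lv, qv,
      Bool.toNat_true, Bool.toNat_false]
    exact ⟨⟨by omega, fun _ _ => by omega⟩, fun _ _ => by omega⟩
  rw [sat3_iff_litAt]
  simp only [Col4, c4E, List.forall_mem_append, List.forall_mem_flatMap, List.forall_mem_cons,
    List.mem_range, List.not_mem_nil, IsEmpty.forall_iff, implies_true, and_true]
  constructor
  · rintro ⟨a, ha⟩
    choose! j hj using ha
    let g : ℕ → ℕ → Bool × Bool := fun i t => if t = 3 then (false, false) else if t = i then (false, true)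
      else (true, decide ((t + 1) % 3 = i))
    let c : ℕ → Bool × Bool := fun x => if x < 4 then (decide (2 ≤ x), decide (x % 2 = 1))
      else if x % 2 = 0 then (false, xor (a ((x - 4) / 4)) (decide ((x - 4) % 4 = 2)))
      else g (j ((x - 5) / 8)) ((x - 5) / 2 % 4)
    have h1 : ∀ v b, c (lv v b) = (false, xor (a v) b) := fun v b => by
      have e1 : (lv v b - 4) / 4 = v := by cases b <;> simp [lv] <;> omega
      have e2 : decide ((lv v b - 4) % 4 = 2) = b := by cases b <;> simp [lv] <;> omega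
      simp only [c, e1, e2]
      rw [if_neg (by simp [lv]), if_pos (by unfold lv; omega)]
    have h2 : ∀ k t, t < 4 → c (qv k t) = g (j k) t := fun k t ht => by
      have e1 : (qv k t - 5) / 8 = k := by unfold qv; omega
      have e2 : (qv k t - 5) / 2 % 4 = t := by unfold qv; omega
      simp only [c, e1, e2]
      rw [if_neg (by unfold qv; omega), if_neg (by unfold qv; omega)]
    refine ⟨c, ⟨by simp [c], fun u hu => ?_⟩, fun k hk => ?_⟩
    · simp only [h1, h2 _ _ (show u % 3 < 4 by omega)]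
      refine ⟨by simp, by simp [c], by simp [c], by simp [c], by simp [c], ?_⟩
      have := hj (u / 3) (by omega)
      simp only [g]
      split_ifs with e1 e2
      · omega
      · rw [← e2, Nat.div_add_mod] at this; simp [this.2]
      · simp
    · have := (hj k hk).1
      simp only [h2 _ _ (show 0 < 4 by omega), h2 _ _ (show 1 < 4 by omega), h2 _ _ (show 2 < 4 by omega),
        h2 _ _ (show 3 < 4 by omega)]
      generalize j k = i at this
      interval_cases i <;> simp [g, c]
  · rintro ⟨c, ⟨h0, h1⟩, h2⟩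
    refine ⟨fun v => decide (c (lv v true) = c 0), fun k hk => ?_⟩
    have k1 : ∀ a b d e f : Bool × Bool, a ≠ b ∧ a ≠ d ∧ a ≠ e ∧ b ≠ d ∧ b ≠ e ∧ d ≠ e ∧ e ≠ f →
      a = f ∨ b = f ∨ d = f := by
      rintro ⟨a, a'⟩ ⟨b, b'⟩ ⟨d, d'⟩ ⟨e, e'⟩ ⟨f, f'⟩
      simp only [ne_eq, Prod.mk.injEq]
      revert a a' b b' d d' e e' f f'; decide +kernel
    have k2 : ∀ a b d e x : Bool × Bool, a ≠ b ∧ a ≠ d ∧ a ≠ e ∧ b ≠ d ∧ b ≠ e ∧ d ≠ e →
      x ≠ d → x ≠ e → b ≠ x → x = a := fun a b d e x h h1 h2 h3 => by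
      have := k1 x b d e a; have := k1 x b d a e; grind
    obtain ⟨j, hj, e⟩ : ∃ j < 3, c (qv k j) = c 1 := by
      rcases k1 _ _ _ _ _ (h2 k hk) with e | e | e
      exacts [⟨0, by omega, e⟩, ⟨1, by omega, e⟩, ⟨2, by omega, e⟩]
    refine ⟨j, hj, ?_⟩
    obtain ⟨a1, a2, a3, a4, a5, a6⟩ := h1 (3 * k + j) (by omega)
    rw [show (3 * k + j) / 3 = k by omega, show (3 * k + j) % 3 = j by omega, e] at a6
    cases h : (litAt φ (3 * k + j)).2 <;> rw [h] at a6
    · simpa [← k2 _ _ _ _ _ h0 a2 a3 a6] using a1.symm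
    · simpa using k2 _ _ _ _ _ h0 a4 a5 a6

variable {α : Type} [Enc α]

theorem PT.twoPow {f : α → ℕ} (hf : PT f) (hb : PB fun a => 2 ^ f a) : PT fun a => 2 ^ f a := by
  have e : ∀ i, (fun x => 2 * x)^[i] 1 = 2 ^ i := fun i => by
    induction i with
    | zero => rfl
    | succ i ih => rw [Function.iterate_succ_apply', ih, pow_succ']
  exact (PT.iterate (step := fun _ x => 2 * x) (by fun_prop) hf (PT.const 1) hb fun a i hi => by
    rw [e, sz_nat]; exact Nat.pow_le_pow_right (by omega) hi).of_eq fun a => e _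

theorem PT.divPow {f g : α → ℕ} (hf : PT f) (hg : PT g) : PT fun a => f a / 2 ^ g a := by
  have e : ∀ y i, (fun x => x / 2)^[i] y = y / 2 ^ i := fun y i => by
    induction i with
    | zero => simp
    | succ i ih => rw [Function.iterate_succ_apply', ih, pow_succ, Nat.div_div_eq_div_mul]
  exact (PT.iterate (step := fun _ x => x / 2) (by fun_prop) hg hf hf.nat_pb fun a i _ => by
    rw [e, sz_nat]; exact Nat.div_le_self _ _).of_eq fun a => e _ _

/-- A number `B` with `M < 2 ^ B ≤ 2 M + 1`. -/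
def lg (M : ℕ) : ℕ := (List.range M).countP fun t => decide (0 < M / 2 ^ t)

theorem lg_eq (M : ℕ) : lg M = Nat.size M := by
  have : ∀ n, (List.range n).countP (fun t => decide (0 < M / 2 ^ t)) = min n M.size := fun n => by
    induction n with
    | zero => simp
    | succ n ih =>
      rw [List.range_succ, List.countP_append, ih]
      have : 0 < M / 2 ^ n ↔ n < M.size := by
        rw [Nat.lt_size, Nat.div_pos_iff]; simp
      simp only [List.countP_singleton, decide_eq_true_eq, this]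
      split_ifs <;> omega
  rw [lg, this, min_eq_right (Nat.size_le.2 Nat.lt_two_pow_self)]

theorem lt_lg (M : ℕ) : M < 2 ^ lg M := lg_eq M ▸ Nat.lt_size_self M

theorem lg_le (M : ℕ) : 2 ^ lg M ≤ 2 * M + 1 := by
  rw [lg_eq]
  rcases h : M.size with _ | s
  · simp
  · have := Nat.lt_size.1 (show s < M.size by omega); omega

theorem PT.lg {f : α → ℕ} (hf : PT f) : PT fun a => lg (f a) :=
  PT.countP (PT.lt (PT.const 0) (PT.divPow (by fun_prop) (by fun_prop))) hf.range

end Pool.Agent.H38.NP
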