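import Pool.Agent.H38.NP.Prog

/-!
Basic register programs and the predicate `PT` (polynomial time on encoded data).
-/

namespace Pool.Agent.H38.NP

open Function

def Run (p : Prog) (s s' : Store) (T : ℕ) : Prop := ∃ t ≤ T, Exec p s s' t

theorem Run.mono {p s s' T T'} (h : Run p s s' T) (hT : T ≤ T') : Run p s s' T' :=
  let ⟨t, ht, e⟩ := h; ⟨t, ht.trans hT, e⟩

theorem Run.of_eq {p s s' s'' T T'} (h : Run p s s' T) (e : s' = s'') (hT : T ≤ T') :
    Run p s s'' T' := e ▸ h.mono hT

theorem Run.skip (s) : Run .skip s s 1 := ⟨1, le_rfl, .skip s⟩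
theorem Run.push (r b s) : Run (.push r b) s (update s r (b :: s r)) 1 := ⟨1, le_rfl, .push r b s⟩
theorem Run.pop (r s) : Run (.pop r) s (update s r (s r).tail) 1 := ⟨1, le_rfl, .pop r s⟩
theorem Run.seq {p q s s' s'' T T'} (h : Run p s s' T) (h' : Run q s' s'' T') :
    Run (.seq p q) s s'' (T + T') :=
  let ⟨t, ht, e⟩ := h; let ⟨t', ht', e'⟩ := h'; ⟨t + t', Nat.add_le_add ht ht', .seq e e'⟩
theorem Run.caseE {r pe pt pf s s' T} (hs : (s r).head? = none) (h : Run pe s s' T) :
    Run (.case r pe pt pf) s s' (1 + T) :=
  let ⟨t, ht, e⟩ := h; ⟨1 + t, by omega, .caseE hs e⟩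
theorem Run.caseT {r pe pt pf s s' T} (hs : (s r).head? = some true) (h : Run pt s s' T) :
    Run (.case r pe pt pf) s s' (1 + T) :=
  let ⟨t, ht, e⟩ := h; ⟨1 + t, by omega, .caseT hs e⟩
theorem Run.caseF {r pe pt pf s s' T} (hs : (s r).head? = some false) (h : Run pf s s' T) :
    Run (.case r pe pt pf) s s' (1 + T) :=
  let ⟨t, ht, e⟩ := h; ⟨1 + t, by omega, .caseF hs e⟩
theorem Run.loopN {r c p s} (hs : c (s r).head? = false) : Run (.loop r c p) s s 1 :=
  ⟨1, le_rfl, .loopN hs⟩
theorem Run.loopY {r c p s s' s'' T T'} (hs : c (s r).head? = true) (h : Run p s s' T)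
    (h' : Run (.loop r c p) s' s'' T') : Run (.loop r c p) s s'' (1 + T + T') :=
  let ⟨t, ht, e⟩ := h; let ⟨t', ht', e'⟩ := h'; ⟨1 + t + t', by omega, .loopY hs e e'⟩

theorem Run.caseB {r pe} {k : Bool → Prog} {s s' T} {b : Bool} (hs : (s r).head? = some b)
    (h : Run (k b) s s' T) : Run (.case r pe (k true) (k false)) s s' (1 + T) := by
  cases b
  · exact Run.caseF hs h
  · exact Run.caseT hs h

theorem Exec.len {p s s' t} (h : Exec p s s' t) (r : ℕ) : (s' r).length ≤ (s r).length + t := by
  induction h with
  | skip => omega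
  | push r' b s =>
    by_cases e : r = r'
    · subst e; simp
    · rw [update_of_ne e]; omega
  | pop r' s =>
    by_cases e : r = r'
    · subst e; simp; omega
    · rw [update_of_ne e]; omega
  | loopN => omega
  | _ => omega

@[simp] theorem sc0 (a s) : sc a s 0 = a := rfl
@[simp] theorem sc_succ (a s n) : sc a s (n + 1) = s n := rfl
@[simp] theorem sc1 (a s) : sc a s 1 = s 0 := rfl
@[simp] theorem sc2 (a s) : sc a s 2 = s 1 := rfl
@[simp] theorem sc3 (a s) : sc a s 3 = s 2 := rfl
@[simp] theorem E_apply (n) : E n = [] := rfl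
@[simp] theorem up0 (a s b) : update (sc a s) 0 b = sc b s := by
  funext r; cases r <;> simp
theorem up_succ (a s r b) : update (sc a s) (r + 1) b = sc a (update s r b) := by
  funext r'; cases r' with
  | zero => simp
  | succ r' => simp [update_apply]
@[simp] theorem up1 (a s b) : update (sc a s) 1 b = sc a (update s 0 b) := up_succ a s 0 b
@[simp] theorem up2 (a s b) : update (sc a s) 2 b = sc a (update s 1 b) := up_succ a s 1 b
@[simp] theorem up3 (a s b) : update (sc a s) 3 b = sc a (update s 2 b) := up_succ a s 2 b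
theorem E_eq : E = sc [] E := by funext r; cases r <;> rfl

def Prog.shift : Prog → Prog
  | .skip => .skip
  | .push r b => .push (r + 1) b
  | .pop r => .pop (r + 1)
  | .seq p q => .seq p.shift q.shift
  | .case r a b c => .case (r + 1) a.shift b.shift c.shift
  | .loop r c p => .loop (r + 1) c p.shift

theorem Exec.shift {p s s' t} (h : Exec p s s' t) (a) : Exec p.shift (sc a s) (sc a s') t := by
  induction h with
  | skip s => exact .skip _
  | push r b s => have := Exec.push (r + 1) b (sc a s); rwa [up_succ] at this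
  | pop r s => have := Exec.pop (r + 1) (sc a s); rwa [up_succ] at this
  | seq _ _ ih ih' => exact .seq ih ih'
  | caseE hs _ ih => exact .caseE hs ih
  | caseT hs _ ih => exact .caseT hs ih
  | caseF hs _ ih => exact .caseF hs ih
  | loopN hs => exact .loopN hs
  | loopY hs _ _ ih ih' => exact .loopY hs ih ih'

theorem Run.shift {p s s' T} (h : Run p s s' T) (a) : Run p.shift (sc a s) (sc a s') T :=
  let ⟨t, ht, e⟩ := h; ⟨t, ht, e.shift a⟩

def pushw (r : ℕ) : List Bool → Prog
  | [] => .skip
  | b :: w => .seq (pushw r w) (.push r b)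

theorem run_pushw (r w s) : Run (pushw r w) s (update s r (w ++ s r)) (w.length + 1) := by
  induction w with
  | nil => simpa [pushw] using Run.skip s
  | cons b w ih => exact (ih.seq (Run.push r b _)).of_eq (by simp) (by simp)

def drainK (a b c : ℕ) (u v : Bool → List Bool) (x : Bool) : Prog :=
  .seq (.pop a) (.seq (pushw b (u x)) (pushw c (v x)))

def drain (a b c : ℕ) (u v : Bool → List Bool) : Prog :=
  .loop a Option.isSome (.case a .skip (drainK a b c u v true) (drainK a b c u v false))

theorem run_drain {a b c : ℕ} (hab : a ≠ b) (hac : a ≠ c) (hbc : b ≠ c) (u v : Bool → List Bool)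
    (huv : ∀ x, (u x).length + (v x).length ≤ 2) (s : Store) :
    Run (drain a b c u v) s
      (update (update (update s a []) b ((s a).reverse.flatMap u ++ s b)) c
        ((s a).reverse.flatMap v ++ s c)) (7 * (s a).length + 1) := by
  generalize hx : s a = x
  induction x generalizing s with
  | nil =>
    refine (Run.loopN (by simp [hx])).of_eq ?_ (by simp)
    funext r; simp only [update_apply]; split_ifs <;> simp_all
  | cons y x ih =>
    have h1 := (Run.pop a s).seq ((run_pushw b (u y) _).seq (run_pushw c (v y) _))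
    have h2 := Run.caseB (pe := .skip) (k := drainK a b c u v) (b := y) (r := a) (by simp [hx]) h1
    have h3 := ih (update (update (update s a (s a).tail) b (u y ++ update s a (s a).tail b)) c
      (v y ++ update (update s a (s a).tail) b (u y ++ update s a (s a).tail b) c))
      (by simp [update_apply, hab, hac, hx])
    refine (Run.loopY (by simp [hx]) h2 h3).of_eq ?_ ?_
    · funext r
      simp only [update_apply]
      split_ifs <;> simp_all
    · have := huv y
      simp only [List.length_cons]; omega

/-- reversing move -/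
def rmv (a b c : ℕ) : Prog := drain a b c (fun x => [x]) (fun _ => [])
def clr (a b c : ℕ) : Prog := drain a b c (fun _ => []) (fun _ => [])
def dup (a b c : ℕ) : Prog := drain a b c (fun x => [x]) (fun x => [x])
def dbl (a b c : ℕ) : Prog := drain a b c (fun x => [true, x]) (fun _ => [])

theorem run_rmv {a b c : ℕ} (hab : a ≠ b) (hac : a ≠ c) (hbc : b ≠ c) (s : Store) :
    Run (rmv a b c) s (update (update s a []) b ((s a).reverse ++ s b)) (7 * (s a).length + 1) := by
  refine (run_drain hab hac hbc _ _ (by simp) s).of_eq ?_ le_rfl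
  funext r; simp only [update_apply]; split_ifs <;> simp_all

theorem run_clr {a b c : ℕ} (hab : a ≠ b) (hac : a ≠ c) (hbc : b ≠ c) (s : Store) :
    Run (clr a b c) s (update s a []) (7 * (s a).length + 1) := by
  refine (run_drain hab hac hbc _ _ (by simp) s).of_eq ?_ le_rfl
  funext r; simp only [update_apply]; split_ifs <;> simp_all

theorem run_dup {a b c : ℕ} (hab : a ≠ b) (hac : a ≠ c) (hbc : b ≠ c) (s : Store) :
    Run (dup a b c) s (update (update (update s a []) b ((s a).reverse ++ s b)) c
      ((s a).reverse ++ s c)) (7 * (s a).length + 1) := by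
  refine (run_drain hab hac hbc _ _ (by simp) s).of_eq ?_ le_rfl
  simp

theorem run_dbl {a b c : ℕ} (hab : a ≠ b) (hac : a ≠ c) (hbc : b ≠ c) (s : Store) :
    Run (dbl a b c) s (update (update s a []) b
      ((s a).reverse.flatMap (fun x => [true, x]) ++ s b)) (7 * (s a).length + 1) := by
  refine (run_drain hab hac hbc _ _ (by simp) s).of_eq ?_ le_rfl
  funext r; simp only [update_apply]; split_ifs <;> simp_all

/-- first component of a code of a pair (total on all strings) -/
def ufst : List Bool → List Bool
  | true :: b :: r => b :: ufst r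
  | _ => []

/-- second component of a code of a pair (total on all strings) -/
def usnd : List Bool → List Bool
  | true :: _ :: r => usnd r
  | [true] => []
  | false :: r => r
  | [] => []

@[simp] theorem ufst_pair (x y) : ufst (pair x y) = x := by
  induction x with
  | nil => simp [pair, ufst]
  | cons b x ih => simpa [pair, ufst] using ih

@[simp] theorem usnd_pair (x y) : usnd (pair x y) = y := by
  induction x with
  | nil => simp [pair, usnd]
  | cons b x ih => simpa [pair, usnd] using ih

@[simp] theorem length_pair (x y) : (pair x y).length = 2 * x.length + 1 + y.length := by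
  induction x with
  | nil => simp [pair]; omega
  | cons b x ih => simp [pair] at ih ⊢; omega

theorem len_ufst_usnd (x : List Bool) : (ufst x).length + (usnd x).length ≤ x.length := by
  fun_induction usnd x <;> simp_all [ufst] <;> omega

def unpK (a b : ℕ) (x : Bool) : Prog := .seq (.pop a) (.push b x)

def unpL (a b : ℕ) : Prog :=
  .loop a (fun o => o.getD false) (.seq (.pop a) (.case a .skip (unpK a b true) (unpK a b false)))

def unp (a b : ℕ) : Prog := .seq (unpL a b) (.pop a)

theorem run_unp {a b : ℕ} (hab : a ≠ b) (s : Store) :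
    Run (unp a b) s (update (update s a (usnd (s a))) b ((ufst (s a)).reverse ++ s b))
      (5 * (s a).length + 2) := by
  suffices H : ∀ x (s : Store), s a = x → ∃ y : List Bool, y.tail = usnd x ∧
      Run (unpL a b) s (update (update s a y) b ((ufst x).reverse ++ s b)) (5 * x.length + 1) by
    obtain ⟨y, hy, h⟩ := H _ s rfl
    refine (h.seq (Run.pop a _)).of_eq ?_ (by omega)
    funext r; simp only [update_apply]; split_ifs <;> simp_all
  intro x
  fun_induction usnd x with
  | case1 y r ih =>
    intro s hs
    obtain ⟨z, hz, h⟩ := ih (update (update s a r) b (y :: s b)) (by simp [update_apply, hab])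
    refine ⟨z, hz, ?_⟩
    have h1 := (Run.pop a s).seq (Run.caseB (pe := .skip) (k := unpK a b) (b := y) (r := a)
      (by simp [hs]) ((Run.pop a _).seq (Run.push b y _)))
    have h2 := h1.of_eq (s'' := update (update s a r) b (y :: s b)) (by
      funext r; simp only [update_apply]; split_ifs <;> simp_all) le_rfl
    refine (Run.loopY (by simp [hs]) h2 h).of_eq ?_ (by simp; omega)
    funext r; simp only [update_apply]; split_ifs <;> simp_all [ufst]
  | case2 =>
    intro s hs
    refine ⟨[], rfl, ?_⟩
    have h1 := (Run.pop a s).seq (Run.caseE (pt := unpK a b true) (pf := unpK a b false) (r := a)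
      (by simp [hs]) (Run.skip _))
    refine (Run.loopY (by simp [hs]) h1 (Run.loopN (by simp [hs]))).of_eq ?_ (by simp)
    funext r; simp only [update_apply]; split_ifs <;> simp_all [ufst]
  | case3 r =>
    intro s hs
    refine ⟨false :: r, rfl, (Run.loopN (by simp [hs])).of_eq ?_ (by simp)⟩
    funext r; simp only [update_apply]; split_ifs <;> simp_all [ufst]
  | case4 =>
    intro s hs
    refine ⟨[], rfl, (Run.loopN (by simp [hs])).of_eq ?_ (by simp)⟩
    funext r; simp only [update_apply]; split_ifs <;> simp_all [ufst]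

/-- `p` turns `x` into `y` within `T` steps -/
def Comp (p : Prog) (x y : List Bool) (T : ℕ) : Prop := Run p (sc x E) (sc y E) T

theorem Comp.len {p x y T} (h : Comp p x y T) : y.length ≤ x.length + T := by
  obtain ⟨t, ht, e⟩ := h
  have := e.len 0
  simp at this; omega

theorem Comp.mono {p x y T T'} (h : Comp p x y T) (hT : T ≤ T') : Comp p x y T' := Run.mono h hT

theorem E4 (x) : sc x E = sc x (sc [] (sc [] (sc [] E))) := by rw [← E_eq, ← E_eq, ← E_eq]

def pairP (p q : Prog) : Prog :=
  .seq (rmv 0 1 2) <| .seq (dup 1 0 2) <| .seq p.shift.shift <| .seq (rmv 2 1 0) <|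
  .seq (rmv 0 3 1) <| .seq (rmv 3 2 0) <| .seq q.shift.shift <| .seq (.push 2 false) <|
  .seq (dbl 1 2 0) <| .seq (rmv 2 1 0) (rmv 1 0 2)

theorem Comp.pair {p q x y z T T'} (h : Comp p x y T) (h' : Comp q x z T') :
    Comp (pairP p q) x (pair y z) (T + T' + 50 * (x.length + y.length + z.length + 1)) := by
  unfold Comp at *
  rw [E4, E4 (NP.pair y z)]
  have hp : Run p.shift.shift (sc x (sc [] (sc x (sc [] E)))) (sc x (sc [] (sc y (sc [] E)))) T := by
    rw [← E_eq]; exact (h.shift _).shift _
  have hq : Run q.shift.shift (sc [] (sc y.reverse (sc x (sc [] E))))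
      (sc [] (sc y.reverse (sc z (sc [] E)))) T' := by
    rw [← E_eq]; exact (h'.shift _).shift _
  refine Run.of_eq ((run_rmv (by simp) (by simp) (by simp) _).seq <|
    Run.seq ((run_dup (by simp) (by simp) (by simp) _).of_eq (by simp) le_rfl) <|
    hp.seq <| (run_rmv (by simp) (by simp) (by simp) _).seq <|
    (run_rmv (by simp) (by simp) (by simp) _).seq <|
    Run.seq ((run_rmv (by simp) (by simp) (by simp) _).of_eq (by simp) le_rfl) <|
    hq.seq <| (Run.push _ _ _).seq <| (run_dbl (by simp) (by simp) (by simp) _).seq <|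
    (run_rmv (by simp) (by simp) (by simp) _).seq (run_rmv (by simp) (by simp) (by simp) _)) ?_ ?_
  · simp [NP.pair]
  · have := length_pair y z
    simp [NP.pair] at this ⊢
    omega

def iterL (p : Prog) : Prog := .loop 0 Option.isSome (.seq (.pop 0) p.shift)

def iterP (p : Prog) : Prog :=
  .seq (unp 0 2) <| .seq (rmv 0 3 1) <| .seq (rmv 3 1 0) <| .seq (rmv 2 0 1) <|
  .seq (iterL p) <| .seq (rmv 1 2 0) (rmv 2 0 1)

theorem run_iterL {p} (T : ℕ) (c : List Bool) (st : ℕ → List Bool)
    (h : ∀ i < c.length, Comp p (st i) (st (i + 1)) T) :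
    Run (iterL p) (sc c (sc (st 0) E)) (sc [] (sc (st c.length) E)) (c.length * (T + 2) + 1) := by
  induction c generalizing st with
  | nil => exact (Run.loopN (by simp)).mono (by simp)
  | cons b c ih =>
    have h1 := ih (fun i => st (i + 1)) (fun i hi => h (i + 1) (by simpa using hi))
    have h0 := (h 0 (by simp)).shift c
    have h2 := ((Run.pop 0 (sc (b :: c) (sc (st 0) E))).of_eq (s'' := sc c (sc (st 0) E))
      (by simp) le_rfl).seq h0
    refine (Run.loopY (by simp) h2 h1).mono ?_
    simp only [List.length_cons]; nlinarith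

theorem Comp.iter {p} (T : ℕ) (c : List Bool) (st : ℕ → List Bool)
    (h : ∀ i < c.length, Comp p (st i) (st (i + 1)) T) :
    Comp (iterP p) (NP.pair c (st 0)) (st c.length)
      (c.length * (T + 2) + 50 * (c.length + (st 0).length + (st c.length).length + 1)) := by
  unfold Comp
  rw [E4, E4 (st c.length)]
  have hl : Run (iterL p) (sc c (sc (st 0) (sc [] (sc [] E))))
      (sc [] (sc (st c.length) (sc [] (sc [] E)))) (c.length * (T + 2) + 1) := by
    rw [← E_eq, ← E_eq]; exact run_iterL T c st h
  refine Run.of_eq ((run_unp (by simp) _).seq <|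
    (run_rmv (by simp) (by simp) (by simp) _).seq <|
    (run_rmv (by simp) (by simp) (by simp) _).seq <|
    Run.seq ((run_rmv (by simp) (by simp) (by simp) _).of_eq (by simp) le_rfl) <|
    hl.seq <| (run_rmv (by simp) (by simp) (by simp) _).seq
      (run_rmv (by simp) (by simp) (by simp) _)) ?_ ?_
  · simp
  · simp
    omega

theorem comp_fst (x) : Comp (.seq (unp 0 1) <| .seq (clr 0 1 2) (rmv 1 0 2)) x (ufst x)
    (20 * (x.length + 1)) := by
  unfold Comp
  rw [E4, E4 (ufst x)]
  refine Run.of_eq ((run_unp (by simp) _).seq <| (run_clr (by simp) (by simp) (by simp) _).seq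
      (run_rmv (by simp) (by simp) (by simp) _)) (by simp) ?_
  have := len_ufst_usnd x
  simp; omega

theorem comp_snd (x) : Comp (.seq (unp 0 1) (clr 1 0 2)) x (usnd x) (20 * (x.length + 1)) := by
  unfold Comp
  rw [E4, E4 (usnd x)]
  refine Run.of_eq ((run_unp (by simp) _).seq <| (run_clr (by simp) (by simp) (by simp) _))
    (by simp) ?_
  have := len_ufst_usnd x
  simp; omega

theorem comp_app (x) : Comp (.seq (unp 0 1) (rmv 1 0 2)) x (ufst x ++ usnd x)
    (20 * (x.length + 1)) := by
  unfold Comp
  rw [E4, E4 (ufst x ++ usnd x)]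
  refine Run.of_eq ((run_unp (by simp) _).seq <| (run_rmv (by simp) (by simp) (by simp) _))
    (by simp) ?_
  have := len_ufst_usnd x
  simp; omega

theorem comp_const (w x) : Comp (.seq (clr 0 1 2) (pushw 0 w)) x w
    (7 * x.length + (w.length + 2)) := by
  unfold Comp
  refine Run.of_eq ((run_clr (by simp) (by simp) (by simp) _).seq (run_pushw _ _ _)) (by simp) ?_
  simp; omega

theorem comp_pop (x) : Comp (.pop 0) x x.tail 1 := (Run.pop 0 _).of_eq (by simp) le_rfl

theorem comp_push (b x) : Comp (.push 0 b) x (b :: x) 1 := (Run.push 0 b _).of_eq (by simp) le_rfl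

end Pool.Agent.H38.NP
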