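import Pool.Agent.H38.NP.Cook

/-!
The Cook-Levin theorem: SAT is NP-hard.
-/

namespace Pool.Agent.H38.NP

open Function Turing Turing.TM2

theorem initList_k0 (tm : FinTM2) (s : List (tm.Γ tm.k₀)) : (initList tm s).stk tm.k₀ = s := by
  simp [initList]
theorem initList_ne (tm : FinTM2) (s : List (tm.Γ tm.k₀)) {k} (h : k ≠ tm.k₀) :
    (initList tm s).stk k = [] := by simp [initList, h]
theorem haltList_k1 (tm : FinTM2) (s : List (tm.Γ tm.k₁)) : (haltList tm s).stk tm.k₁ = s := by
  simp [haltList]

theorem tableau {f : List Bool → List Bool} (hf : PolyTime f) :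
    ∃ (A : Type) (TT IC I0 I1 IW IB FIN : List (List (TL A))) (D : ℕ) (τ : Polynomial ℕ),
      ∀ (y : List Bool) (q : ℕ), Sat (build TT IC I0 I1 IW IB FIN y q (τ.eval (y.length + q))
        (τ.eval (y.length + q) * D + (y.length + q + 2))) ↔
        ∃ w : List Bool, w.length ≤ q ∧ f (y ++ w) = [true] := by
  classical
  obtain ⟨⟨⟨tm, ia, oa⟩, τ, hout⟩⟩ := hf
  have := tm.kFin
  have := tm.ΛFin
  have := tm.σFin
  let M := tm.m
  let G : Set (Σ k, tm.Γ k) := (⋃ l, syms (M l)) ∪ Set.range fun b : Bool => ⟨tm.k₀, ia.symm b⟩
  have hGf : G.Finite := (Set.finite_iUnion fun l => syms_finite _).union (Set.finite_range _)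
  have hG : ∀ l, syms (M l) ⊆ G := fun l x hx => Or.inl (Set.mem_iUnion.2 ⟨l, hx⟩)
  let D := Finset.univ.sup fun l => depth (M l)
  have hD : ∀ l, depth (M l) ≤ D := fun l =>
    Finset.le_sup (f := fun l => depth (M l)) (Finset.mem_univ l)
  let ks : List tm.K := Finset.univ.toList
  have hks : ∀ k, k ∈ ks := fun k => by simp [ks]
  let A := Atom tm.Γ tm.Λ tm.σ
  let bl : A := X tm.k₀ none
  let sy : Bool → A := fun b => X tm.k₀ (some (ia.symm b))
  let FINs : Set (List (TL A)) :=
    (fun o => [(0, 0, false, X tm.k₁ o, false)]) '' (GoodO G tm.k₁ \ {some (oa.symm true)}) ∪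
    (fun o => [(0, 1, false, X tm.k₁ o, false)]) '' (GoodO G tm.k₁ \ {none})
  have hFIN : FINs.Finite :=
    (((goodO_finite hGf _).sdiff).image _).union (((goodO_finite hGf _).sdiff).image _)
  let c0 : List Bool → Cfg tm.Γ tm.Λ tm.σ := fun u => initList tm (u.map ia.symm)
  have hgood0 : ∀ u, Good G (c0 u).stk := by
    intro u k a ha
    by_cases e : k = tm.k₀
    · subst e
      simp only [c0, initList_k0, List.mem_map] at ha
      obtain ⟨b, -, rfl⟩ := ha
      exact Or.inr ⟨b, rfl⟩
    · simp [c0, initList_ne tm _ e] at ha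
  have hgood : ∀ u t, Good G ((nxt M)^[t] (c0 u)).stk := by
    intro u t
    induction t with
    | zero => exact hgood0 u
    | succ t ih => rw [iterate_succ_apply']; exact good_nxt M hG _ ih
  have hrun : ∀ (u : List Bool) T, τ.eval u.length ≤ T →
      ((nxt M)^[T] (c0 u)).stk tm.k₁ = (f u).map oa.symm := by
    intro u T hT
    have h := hout u
    have := iter_nxt_le M (h.steps_le_m.trans hT) (c := c0 u)
      (c' := haltList tm ((f u).map oa.symm)) rfl h.evals_in_steps
    rw [this, haltList_k1]
  refine ⟨A, (tts_finite M ks hGf D).toFinset.toList,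
    [(0, 0, false, Z (c0 []), true)] ::
      (ks.filter (· ≠ tm.k₀)).map (fun k => [(0, 0, true, X k none, true)]),
    [[(0, 0, true, sy false, true)]], [[(0, 0, true, sy true, true)]],
    [[(0, 0, true, bl, true), (0, 0, true, sy false, true), (0, 0, true, sy true, true)],
      [(0, 0, true, bl, false), (0, 1, true, bl, true)]],
    [[(0, 0, true, bl, true)]], hFIN.toFinset.toList, D, τ, fun y q => ?_⟩
  generalize hT : τ.eval (y.length + q) = T
  generalize hN : T * D + (y.length + q + 2) = N
  constructor
  · rintro ⟨a, ha⟩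
    simp only [mem_build, Finset.mem_toList, Set.Finite.mem_toFinset] at ha
    have hTT : ∀ t < T, ∀ i < N, ∀ C ∈ TTs M ks G D, ∃ l ∈ inst t i C, a l.1 = l.2 :=
      fun t ht i hi C hC => ha _ (Or.inl ⟨t, ht, i, hi, C, hC, rfl⟩)
    have hI := fun i hi C hC => ha _ (Or.inr (Or.inl ⟨i, hi, C, hC, rfl⟩))
    have hF := fun C hC => ha _ (Or.inr (Or.inr ⟨C, hC, rfl⟩))
    clear ha
    have hB : ∀ i < N, y.length + q ≤ i → a (0, i, bl) = true := by
      intro i hi h
      have := hI i hi [(0, 0, true, bl, true)] (Or.inr (by
        simp [sel, show ¬ i < y.length by omega, show ¬ i < y.length + q by omega]))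
      simpa [inst] using this
    have hex : ∃ j, a (0, y.length + j, bl) = true := ⟨q, hB _ (by omega) le_rfl⟩
    have hℓ : Nat.find hex ≤ q := Nat.find_min' hex (hB _ (by omega) le_rfl)
    have hbl : ∀ j, Nat.find hex ≤ j → y.length + j < N → a (0, y.length + j, bl) = true := by
      intro j hj
      induction j, hj using Nat.le_induction with
      | base => exact fun _ => Nat.find_spec hex
      | succ j hj ih =>
        intro hjN
        by_cases hq : j < q
        · have := hI (y.length + j) (by omega) [(0, 0, true, bl, false), (0, 1, true, bl, true)]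
            (Or.inr (by simp [sel, hq]))
          have ih' := ih (by omega)
          simpa [inst, ih', Nat.add_assoc] using this
        · exact hB _ hjN (by omega)
    let w : List Bool := (List.range (Nat.find hex)).map fun j => a (0, y.length + j, sy true)
    have hw : w.length = Nat.find hex := by simp [w]
    refine ⟨w, hw ▸ hℓ, ?_⟩
    have h0 : ∀ k, ∀ i < N, a (0, i, X k ((c0 (y ++ w)).stk k)[i]?) = true := by
      intro k i hi
      by_cases e : k = tm.k₀
      · subst e
        simp only [c0, initList_k0]
        by_cases h1 : i < y.length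
        · have e1 : ((y ++ w).map ia.symm)[i]? = some (ia.symm y[i]) := by
            simp [List.getElem?_append_left h1, h1, -List.map_append]
          rw [e1]
          have := hI i hi [(0, 0, true, sy y[i], true)] (Or.inr (by
            simp only [sel, h1, decide_true, cond_true, List.getD_eq_getElem _ _ h1]
            cases y[i] <;> simp))
          simpa [inst] using this
        · obtain ⟨j, rfl⟩ := Nat.exists_eq_add_of_le (not_lt.1 h1)
          by_cases h2 : j < Nat.find hex
          · have e1 : ((y ++ w).map ia.symm)[y.length + j]? =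
                some (ia.symm (a (0, y.length + j, sy true))) := by
              simp [List.getElem?_append_right, w, h2]
            rw [e1]
            have h3 := Nat.find_min hex h2
            have := hI _ hi [(0, 0, true, bl, true), (0, 0, true, sy false, true),
              (0, 0, true, sy true, true)] (Or.inr (by simp [sel, show j < q by omega]))
            simp only [inst, List.map_cons, List.map_nil, List.mem_cons, List.not_mem_nil,
              or_false, exists_eq_or_imp, exists_eq_left, cond_true, Nat.add_zero, h3,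
              false_or] at this
            cases h4 : a (0, y.length + j, sy true)
            · simpa [h4] using this
            · exact h4
          · rw [List.getElem?_eq_none (by
              simp only [List.length_map, List.length_append, hw]; omega)]
            exact hbl j (not_lt.1 h2) hi
      · simp only [c0, initList_ne tm _ e]
        have := hI i hi [(0, 0, true, X k none, true)] (Or.inl (by
          simp only [List.mem_cons, List.mem_map, List.mem_filter]
          exact Or.inr ⟨k, ⟨hks k, by simpa using e⟩, rfl⟩))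
        simpa [inst] using this
    have hinv : ∀ t ≤ T, a (t, 0, Z ((nxt M)^[t] (c0 (y ++ w)))) = true ∧
        ∀ k, ∀ i < N - t * D, a (t, i, X k (((nxt M)^[t] (c0 (y ++ w))).stk k)[i]?) = true := by
      intro t ht
      induction t with
      | zero =>
        refine ⟨?_, by simpa using h0⟩
        have := hI 0 (by omega) [(0, 0, false, Z (c0 []), true)] (Or.inl (by simp))
        have h2 : a (0, 0, Z (c0 [])) = true := by simpa [inst] using this
        exact h2
      | succ t ih =>
        obtain ⟨h1, h2⟩ := ih (by omega)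
        have h3 : (t + 1) * D ≤ T * D := Nat.mul_le_mul_right _ ht
        have h4 : N - (t + 1) * D + D = N - t * D := by
          rw [Nat.succ_mul] at h3 ⊢; omega
        rw [iterate_succ_apply']
        exact tts_sound M hD _ (hgood _ t) a t _ (by omega) (hTT t (by omega)) (by omega) h1
          (by rw [h4]; exact h2)
    have hfin := (hinv T le_rfl).2 tm.k₁
    have hr := hrun (y ++ w) T (by
      rw [← hT]; exact eval_mono _ (by simp only [List.length_append, hw]; omega))
    have hg := goodO_get (hgood (y ++ w) T) tm.k₁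
    rw [hr] at hfin hg
    have e0 : ((f (y ++ w)).map oa.symm)[0]? = some (oa.symm true) := by
      by_contra hne
      have := hF _ (Or.inl ⟨_, ⟨hg 0, hne⟩, rfl⟩)
      simp [inst, -List.getElem?_map, hfin 0 (by omega)] at this
    have e1 : ((f (y ++ w)).map oa.symm)[1]? = none := by
      by_contra hne
      have := hF _ (Or.inr ⟨_, ⟨hg 1, hne⟩, rfl⟩)
      simp [inst, -List.getElem?_map, hfin 1 (by omega)] at this
    rcases hfy : f (y ++ w) with _ | ⟨b, _ | _⟩
    · simp [hfy] at e0
    · simpa [hfy] using e0
    · simp [hfy] at e1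
  · rintro ⟨w, hw, hfw⟩
    let c : ℕ → Cfg tm.Γ tm.Λ tm.σ := fun t => (nxt M)^[t] (c0 (y ++ w))
    let a : ℕ × ℕ × A → Bool := fun v => decide (Holds D (c v.1) v.2.1 v.2.2)
    have ha : ∀ t i x, a (t, i, x) = true ↔ Holds D (c t) i x := by simp [a]
    have ha' : ∀ t i x, a (t, i, x) = false ↔ ¬ Holds D (c t) i x := by simp [a]
    have hc0 : (c 0).stk tm.k₀ = (y ++ w).map ia.symm := initList_k0 _ _
    refine ⟨a, fun C hC => ?_⟩
    simp only [mem_build, Finset.mem_toList, Set.Finite.mem_toFinset] at hC
    rcases hC with ⟨t, -, i, -, C, hC, rfl⟩ | ⟨i, -, C, hC | hC, rfl⟩ | ⟨C, hC, rfl⟩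
    · exact tts_complete M hks hD c a ha t i (iterate_succ_apply' _ _ _) C hC
    · simp only [List.mem_cons, List.mem_map, List.mem_filter] at hC
      rcases hC with rfl | ⟨k, ⟨-, hk⟩, rfl⟩
      · simp [inst, ha, Holds, Z, c, c0, initList]
      · have : (c 0).stk k = [] := initList_ne tm _ (by simpa using hk)
        simp [inst, ha, Holds, X, this]
    · by_cases h1 : i < y.length
      · have e1 : ((y ++ w).map ia.symm)[i]? = some (ia.symm y[i]) := by
          simp [List.getElem?_append_left h1, h1, -List.map_append]
        have : C = [(0, 0, true, sy y[i], true)] := by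
          simp only [sel, h1, decide_true, cond_true, List.getD_eq_getElem _ _ h1] at hC
          revert hC
          cases y[i] <;> simp
        subst this
        simp [inst, ha, Holds, X, sy, hc0, e1, -List.getElem?_map, -List.map_append]
      · by_cases h2 : i < y.length + q
        · simp only [sel, h1, h2, decide_true, decide_false, cond_true, cond_false, List.mem_cons,
            List.not_mem_nil, or_false] at hC
          rcases hC with rfl | rfl
          · simp only [inst, List.map_cons, List.map_nil, List.mem_cons, List.not_mem_nil,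
              or_false, exists_eq_or_imp, exists_eq_left, cond_true, Nat.add_zero, ha, Holds, bl,
              sy, X, hc0, List.getElem?_map]
            rcases (y ++ w)[i]? with _ | _ | _ <;> simp
          · simp only [inst, List.map_cons, List.map_nil, List.mem_cons, List.not_mem_nil,
              or_false, exists_eq_or_imp, exists_eq_left, cond_true, Nat.add_zero, ha, ha', Holds,
              bl, X, hc0, List.getElem?_eq_none_iff]
            omega
        · simp only [sel, h1, h2, decide_false, cond_false, List.mem_cons,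
            List.not_mem_nil, or_false] at hC
          subst hC
          simp [inst, ha, Holds, bl, X, hc0]
          omega
    · have hr : (c T).stk tm.k₁ = [oa.symm true] := by
        have := hrun (y ++ w) T (by rw [← hT]; exact eval_mono _ (by simp; omega))
        rw [hfw] at this; exact this
      rcases hC with ⟨o, ⟨-, ho⟩, rfl⟩ | ⟨o, ⟨-, ho⟩, rfl⟩
      · simpa [inst, ha', Holds, X, hr, eq_comm] using ho
      · simpa [inst, ha', Holds, X, hr, eq_comm] using ho

/-- internal form of NP-hardness on a class `C` -/
def NPH {α : Type} [Enc α] (C P : α → Prop) : Prop :=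
  ∀ A, InNP A → ∃ g : Bits → α, PT g ∧ ∀ x, C (g x) ∧ (x.val ∈ A ↔ P (g x))

theorem tableau_nat {f : List Bool → List Bool} (hf : PolyTime f) :
    ∃ g : List Bool × ℕ → CNF ℕ, PT g ∧
      ∀ (y : List Bool) (q : ℕ), Sat (g (y, q)) ↔
        ∃ w : List Bool, w.length ≤ q ∧ f (y ++ w) = [true] := by
  classical
  obtain ⟨A, TT, IC, I0, I1, IW, IB, FIN, D, τ, h⟩ := tableau hf
  let atoms : List A := (TT ++ IC ++ I0 ++ I1 ++ IW ++ IB ++ FIN).flatten.map fun l => l.2.2.2.1
  let c : A → ℕ := fun x => atoms.idxOf x
  refine ⟨fun p => ren (fun v : ℕ × ℕ × ℕ => Nat.pair v.1 (Nat.pair v.2.1 v.2.2))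
    (build (mapT c TT) (mapT c IC) (mapT c I0) (mapT c I1) (mapT c IW) (mapT c IB) (mapT c FIN)
      p.1 p.2 (τ.eval (p.1.length + p.2)) (τ.eval (p.1.length + p.2) * D + (p.1.length + p.2 + 2))),
    ?_, fun y q => ?_⟩
  · have hT : PT fun p : List Bool × ℕ => τ.eval (p.1.length + p.2) :=
      PT.polyEval τ (by fun_prop)
    have := pt_build (mapT c TT) (mapT c IC) (mapT c I0) (mapT c I1) (mapT c IW) (mapT c IB)
      (mapT c FIN) (y := fun p : List Bool × ℕ => p.1) (q := fun p => p.2) (by fun_prop)
      (by fun_prop) hT ((hT.mul (PT.const D)).add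
        (by fun_prop : PT fun p : List Bool × ℕ => p.1.length + p.2 + 2))
    have h2 : PT (ren (fun v : ℕ × ℕ × ℕ => Nat.pair v.1 (Nat.pair v.2.1 v.2.2))) := by
      unfold ren; fun_prop
    exact h2.comp this
  · simp only
    rw [sat_ren _ _ (fun n => (n.unpair.1, n.unpair.2.unpair.1, n.unpair.2.unpair.2)) (by simp),
      ← ren_build, ← h]
    by_cases hA : Nonempty A
    · obtain ⟨d⟩ := hA
      apply sat_ren _ _ (fun v => (v.1, v.2.1, atoms.getD v.2.2 d))
      intro C hC l hl
      have : l.1.2.2 ∈ atoms := by
        have : ∃ C' ∈ TT ++ IC ++ I0 ++ I1 ++ IW ++ IB ++ FIN, ∃ t i, inst t i C' = C := by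
          rcases mem_build.1 hC with ⟨t, -, i, -, C', hC', e⟩ | ⟨i, -, C', hC' | hC', e⟩ |
            ⟨C', hC', e⟩
          · exact ⟨C', by simp [hC'], _, _, e⟩
          · exact ⟨C', by simp [hC'], _, _, e⟩
          · refine ⟨C', ?_, _, _, e⟩
            revert hC'; unfold sel
            cases decide (i < y.length) <;> cases y.getD i false <;>
              cases decide (i < y.length + q) <;> simp +contextual
          · exact ⟨C', by simp [hC'], _, _, e⟩
        obtain ⟨C', hC', t, i, rfl⟩ := this
        obtain ⟨l', hl', rfl⟩ := List.mem_map.1 hl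
        exact List.mem_map.2 ⟨l', List.mem_flatten.2 ⟨C', hC', hl'⟩, rfl⟩
      have h2 := List.idxOf_lt_length_of_mem this
      simp [c, h2]
    · have he : IsEmpty (ℕ × ℕ × A) := ⟨fun v => hA ⟨v.2.2⟩⟩
      constructor
      · rintro ⟨a, ha⟩
        refine ⟨fun _ => true, fun C hC => ?_⟩
        obtain ⟨l, hl, -⟩ := ha _ (List.mem_map_of_mem hC)
        obtain ⟨l', -, -⟩ := List.mem_map.1 hl
        exact he.elim l'.1
      · rintro ⟨a, ha⟩
        refine ⟨fun _ => true, fun C' hC' => ?_⟩
        obtain ⟨C, hC, rfl⟩ := List.mem_map.1 hC'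
        obtain ⟨l, -, -⟩ := ha C hC
        exact he.elim l.1

theorem pair_eq_append (x w : List Bool) : pair x w = pair x [] ++ w := by simp [pair]

/-- Cook-Levin -/
theorem sat_nph : NPH (fun _ : CNF ℕ => True) Sat := by
  rintro A ⟨R, ⟨f, hf, hR⟩, p, hA⟩
  obtain ⟨g, hg, h⟩ := tableau_nat hf
  refine ⟨fun x => g (pair x.val [], p.eval x.val.length), hg.comp (PT.mk ?_ ?_), fun x => ?_⟩
  · unfold pair; fun_prop
  · exact PT.polyEval p (by fun_prop)
  · simp only [h, hA, hR, ← pair_eq_append, true_and]

end Pool.Agent.H38.NP
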