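import Mathlib

/-!
Complexity classes over bit strings, defined with the polynomial-time Turing machines of Mathlib
(`Turing.TM2ComputableInPolyTime`), and the standard encodings of finite data as bit strings.
-/

namespace Pool.Agent.H38.NP

/-- `f` is computed by a deterministic polynomial-time Turing machine (Mathlib model). -/
def PolyTime (f : List Bool → List Bool) : Prop :=
  Nonempty (Turing.TM2ComputableInPolyTime (id : List Bool → List Bool)
    (id : List Bool → List Bool) f)

/-- Self-delimiting pairing of bit strings. -/
def pair (x y : List Bool) : List Bool := x.flatMap (fun b => [true, b]) ++ false :: y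

/-- The class P. -/
def InP (L : Set (List Bool)) : Prop :=
  ∃ f, PolyTime f ∧ ∀ x, x ∈ L ↔ f x = [true]

/-- The class NP (polynomial-size certificates checked in polynomial time). -/
def InNP (L : Set (List Bool)) : Prop :=
  ∃ R, InP R ∧ ∃ p : Polynomial ℕ,
    ∀ x, x ∈ L ↔ ∃ w : List Bool, w.length ≤ p.eval x.length ∧ pair x w ∈ R

/-- The class coNP. -/
def InCoNP (L : Set (List Bool)) : Prop := InNP Lᶜ

/-- Polynomial-time many-one reducibility. -/
def Reduces (A B : Set (List Bool)) : Prop :=
  ∃ f, PolyTime f ∧ ∀ x, x ∈ A ↔ f x ∈ B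

/-- NP-hardness under polynomial-time many-one reductions. -/
def NPHard (B : Set (List Bool)) : Prop := ∀ A, InNP A → Reduces A B

/-- NP-completeness. -/
def NPComplete (B : Set (List Bool)) : Prop := InNP B ∧ NPHard B

/-- coNP-hardness under polynomial-time many-one reductions. -/
def CoNPHard (B : Set (List Bool)) : Prop := ∀ A, InCoNP A → Reduces A B

/-- coNP-completeness. -/
def CoNPComplete (B : Set (List Bool)) : Prop := InCoNP B ∧ CoNPHard B

/-- Encodings of data as bit strings. -/
class Enc (α : Type) where
  /-- the code of an object -/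
  enc : α → List Bool

export Enc (enc)

instance encUnit : Enc Unit := ⟨fun _ => []⟩

instance encBool : Enc Bool := ⟨fun b => [b]⟩

/-- Natural numbers in unary. -/
instance encNat : Enc ℕ := ⟨fun n => List.replicate n true⟩

instance encProd {α β : Type} [Enc α] [Enc β] : Enc (α × β) :=
  ⟨fun p => pair (enc p.1) (enc p.2)⟩

instance encList {α : Type} [Enc α] : Enc (List α) :=
  ⟨fun l => l.foldr (fun a r => pair (enc a) r) []⟩

instance encOption {α : Type} [Enc α] : Enc (Option α) := ⟨fun o => enc o.toList⟩

/-- Natural numbers that are written in binary. -/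
structure Bin where
  /-- the number -/
  val : ℕ

instance encBin : Enc Bin := ⟨fun n => n.val.bits⟩

/-- The language of codes of the objects with property `P`. -/
def lang {α : Type} [Enc α] (P : α → Prop) : Set (List Bool) := {x | ∃ a, enc a = x ∧ P a}

/-- The decision problem `P`, restricted to inputs in the class `C`, is NP-hard: every language
in NP has a polynomial-time many-one reduction to it whose values are codes of members of `C`. -/
def NPHardOn {α : Type} [Enc α] (C P : α → Prop) : Prop :=
  ∀ A, InNP A → ∃ f, PolyTime f ∧ ∀ x, ∃ a, f x = enc a ∧ C a ∧ (x ∈ A ↔ P a)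

/-- The same for coNP. -/
def CoNPHardOn {α : Type} [Enc α] (C P : α → Prop) : Prop :=
  ∀ A, InCoNP A → ∃ f, PolyTime f ∧ ∀ x, ∃ a, f x = enc a ∧ C a ∧ (x ∈ A ↔ P a)

/-- The decision problem `P`, restricted to inputs in `C`, is solved in polynomial time. -/
def InPOn {α : Type} [Enc α] (C P : α → Prop) : Prop :=
  ∃ f, PolyTime f ∧ ∀ a, C a → (P a ↔ f (enc a) = [true])

/-- The decision problem `P`, restricted to inputs in `C`, has polynomial certificates. -/
def InNPOn {α : Type} [Enc α] (C P : α → Prop) : Prop :=
  ∃ R, InP R ∧ ∃ p : Polynomial ℕ, ∀ a, C a →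
    (P a ↔ ∃ w : List Bool, w.length ≤ p.eval (enc a).length ∧ pair (enc a) w ∈ R)

/-- The function `g`, restricted to inputs in `C`, is computed in polynomial time. -/
def PolyTimeOn {α β : Type} [Enc α] [Enc β] (C : α → Prop) (g : α → β) : Prop :=
  ∃ f, PolyTime f ∧ ∀ a, C a → f (enc a) = enc (g a)

/-- The simple graph on `Fin n` given by a list of pairs (loops and out-of-range pairs are
ignored, orientation is forgotten). -/
def graphOf (n : ℕ) (E : List (ℕ × ℕ)) : SimpleGraph (Fin n) :=
  SimpleGraph.fromRel fun u v => (u.val, v.val) ∈ E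

end Pool.Agent.H38.NP
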