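import Pool.Agent.H38.NP.Basic

/-!
The predicate `PT f`: the function `f` on encoded data is computed in polynomial time.
Closure properties are registered with `fun_prop`.
-/

namespace Pool.Agent.H38.NP

open Function

variable {α β γ δ σ : Type} [Enc α] [Enc β] [Enc γ] [Enc δ] [Enc σ]

/-- size of the code -/
abbrev sz (a : α) : ℕ := (enc a).length

theorem eval_mono (q : Polynomial ℕ) {a b : ℕ} (h : a ≤ b) : q.eval a ≤ q.eval b := by
  rw [Polynomial.eval_eq_sum_range, Polynomial.eval_eq_sum_range]
  exact Finset.sum_le_sum fun i _ => Nat.mul_le_mul_left _ (Nat.pow_le_pow_left h i)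

/-- polynomially bounded in the size of the argument -/
def PB (t : α → ℕ) : Prop := ∃ q : Polynomial ℕ, ∀ a, t a ≤ q.eval (sz a)

theorem PB.mono {t u : α → ℕ} (h : PB u) (e : ∀ a, t a ≤ u a) : PB t :=
  let ⟨q, hq⟩ := h; ⟨q, fun a => (e a).trans (hq a)⟩
theorem PB.const (c : ℕ) : PB (fun _ : α => c) := ⟨Polynomial.C c, by simp⟩
theorem PB.sz : PB (fun a : α => sz a) := ⟨Polynomial.X, by simp⟩
theorem PB.add {t u : α → ℕ} (h : PB t) (h' : PB u) : PB (fun a => t a + u a) :=
  let ⟨q, hq⟩ := h; let ⟨q', hq'⟩ := h'
  ⟨q + q', fun a => by simpa using Nat.add_le_add (hq a) (hq' a)⟩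
theorem PB.mul {t u : α → ℕ} (h : PB t) (h' : PB u) : PB (fun a => t a * u a) :=
  let ⟨q, hq⟩ := h; let ⟨q', hq'⟩ := h'
  ⟨q * q', fun a => by simpa using Nat.mul_le_mul (hq a) (hq' a)⟩
theorem PB.eval {t : α → ℕ} (q : Polynomial ℕ) (h : PB t) : PB (fun a => q.eval (t a)) :=
  let ⟨q', hq'⟩ := h
  ⟨q.comp q', fun a => by simpa [Polynomial.eval_comp] using eval_mono q (hq' a)⟩

@[fun_prop]
def PT (f : α → β) : Prop :=
  ∃ (p : Prog) (q : Polynomial ℕ), ∀ a, Comp p (enc a) (enc (f a)) (q.eval (sz a))

theorem PT.mk' {f : α → β} (p : Prog) {t : α → ℕ} (ht : PB t)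
    (h : ∀ a, Comp p (enc a) (enc (f a)) (t a)) : PT f :=
  let ⟨q, hq⟩ := ht; ⟨p, q, fun a => (h a).mono (hq a)⟩

theorem PT.pb {f : α → β} (h : PT f) : PB (fun a => sz (f a)) :=
  let ⟨_, q, hq⟩ := h
  (PB.sz.add (PB.sz.eval q)).mono fun a => (hq a).len

@[simp] theorem enc_nat (n : ℕ) : enc n = List.replicate n true := rfl
@[simp] theorem enc_bool (b : Bool) : enc b = [b] := rfl
@[simp] theorem enc_unit (u : Unit) : enc u = [] := rfl
@[simp] theorem enc_prod (a : α) (b : β) : enc (a, b) = pair (enc a) (enc b) := rfl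
theorem enc_prod' (p : α × β) : enc p = pair (enc p.1) (enc p.2) := rfl
@[simp] theorem enc_nil : enc ([] : List α) = [] := rfl
@[simp] theorem enc_cons (a : α) (l : List α) : enc (a :: l) = pair (enc a) (enc l) := rfl
@[simp] theorem enc_none : enc (none : Option α) = [] := rfl
@[simp] theorem enc_some (a : α) : enc (some a) = pair (enc a) [] := rfl
theorem enc_append (l l' : List α) : enc (l ++ l') = enc l ++ enc l' := by
  induction l with
  | nil => simp
  | cons a l ih => simp [ih, pair]
theorem sz_append (l l' : List α) : sz (l ++ l') = sz l + sz l' := by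
  simp [sz, enc_append]
@[simp] theorem sz_nat (n : ℕ) : sz n = n := by simp [sz]
@[simp] theorem sz_nil : sz ([] : List α) = 0 := rfl
@[simp] theorem sz_bool (b : Bool) : sz b = 1 := rfl
theorem sz_prod (p : α × β) : sz p = 2 * sz p.1 + 1 + sz p.2 := by simp [sz, enc_prod']
theorem sz_cons (a : α) (l : List α) : sz (a :: l) = 2 * sz a + 1 + sz l := by simp [sz]
theorem length_le_sz (l : List α) : l.length ≤ sz l := by
  induction l with
  | nil => simp
  | cons a l ih => rw [sz_cons]; simp; omega
theorem sz_le_of_mem {a : α} {l : List α} (h : a ∈ l) : sz a ≤ sz l := by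
  induction l with
  | nil => simp at h
  | cons b l ih =>
    rw [sz_cons]
    rcases List.mem_cons.1 h with rfl | h
    · omega
    · have := ih h; omega
theorem sz_le_of_sublist {l l' : List α} (h : l.Sublist l') : sz l ≤ sz l' := by
  induction h with
  | slnil => rfl
  | cons a _ ih => rw [sz_cons]; omega
  | cons_cons a _ ih => rw [sz_cons, sz_cons]; omega
theorem sz_le_of_forall {l : List α} {B : ℕ} (h : ∀ a ∈ l, sz a ≤ B) :
    sz l ≤ l.length * (2 * B + 1) := by
  induction l with
  | nil => simp
  | cons a l ih =>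
    have := ih fun b hb => h b (List.mem_cons_of_mem _ hb)
    have := h a List.mem_cons_self
    rw [sz_cons, List.length_cons]; nlinarith

theorem PT.nat_pb {t : α → ℕ} (h : PT t) : PB t := h.pb.mono fun a => by simp

theorem PT.of_eq {f g : α → β} (h : PT f) (e : ∀ a, f a = g a) : PT g := (funext e : f = g) ▸ h

theorem PT.recast {f : α → β} {g : γ → δ} (h : PT f) (i : γ → α) (hi : ∀ a, enc (i a) = enc a)
    (e : ∀ a, enc (f (i a)) = enc (g a)) : PT g :=
  let ⟨p, q, hq⟩ := h; ⟨p, q, fun a => by simpa only [sz, hi, e] using hq (i a)⟩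

theorem PT.recast' {f : α → β} {g : α → δ} (h : PT f) (e : ∀ a, enc (f a) = enc (g a)) : PT g :=
  h.recast id (fun _ => rfl) e

@[fun_prop] theorem PT.id' : PT (fun a : α => a) := PT.mk' .skip (PB.const 1) fun _ => Run.skip _

@[fun_prop] theorem PT.const (b : β) : PT (fun _ : α => b) :=
  PT.mk' _ (((PB.const 7).mul PB.sz).add (PB.const _)) fun a => comp_const (enc b) (enc a)

@[fun_prop] theorem PT.comp {f : β → γ} {g : α → β} (hf : PT f) (hg : PT g) :
    PT (fun a => f (g a)) := by
  have hb := hg.pb
  obtain ⟨p, q, h⟩ := hf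
  obtain ⟨p', q', h'⟩ := hg
  exact PT.mk' (.seq p' p) ((PB.sz.eval q').add (hb.eval q)) fun a => Run.seq (h' a) (h (g a))

@[fun_prop] theorem PT.mk {f : α → β} {g : α → γ} (hf : PT f) (hg : PT g) :
    PT (fun a => (f a, g a)) := by
  have hb := hf.pb
  have hb' := hg.pb
  obtain ⟨p, q, h⟩ := hf
  obtain ⟨p', q', h'⟩ := hg
  exact PT.mk' _ (((PB.sz.eval q).add (PB.sz.eval q')).add ((PB.const 50).mul
    (((PB.sz.add hb).add hb').add (PB.const 1)))) fun a => Comp.pair (h a) (h' a)

/-- raw bit strings, encoded by themselves -/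
structure Bits where
  val : List Bool

instance : Enc Bits := ⟨Bits.val⟩

@[simp] theorem enc_bits (x : Bits) : enc x = x.val := rfl

def raw (a : α) : Bits := ⟨enc a⟩

@[simp] theorem raw_val (a : α) : (raw a).val = enc a := rfl

@[fun_prop] theorem PT.raw {f : α → β} (h : PT f) : PT (fun a => raw (f a)) := h.recast' fun _ => rfl

def Bits.fst (x : Bits) : Bits := ⟨ufst x.val⟩
def Bits.snd (x : Bits) : Bits := ⟨usnd x.val⟩
def Bits.app (x y : Bits) : Bits := ⟨x.val ++ y.val⟩
def Bits.tail (x : Bits) : Bits := ⟨x.val.tail⟩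
def Bits.case3 {τ : Type} (x : Bits) (e t f : τ) : τ :=
  match x.val.head? with
  | none => e
  | some true => t
  | some false => f

@[fun_prop] theorem PT.bfst : PT Bits.fst :=
  PT.mk' _ ((PB.const 20).mul (PB.sz.add (PB.const 1))) fun a => comp_fst _
@[fun_prop] theorem PT.bsnd : PT Bits.snd :=
  PT.mk' _ ((PB.const 20).mul (PB.sz.add (PB.const 1))) fun a => comp_snd _
@[fun_prop] theorem PT.btail : PT Bits.tail := PT.mk' _ (PB.const 1) fun _ => comp_pop _
@[fun_prop] theorem PT.bapp {f g : α → Bits} (hf : PT f) (hg : PT g) :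
    PT (fun a => (f a).app (g a)) := by
  have : PT (fun p : Bits × Bits => p.1.app p.2) :=
    PT.mk' _ ((PB.const 20).mul (PB.sz.add (PB.const 1))) fun a => by
      have := comp_app (enc a)
      rwa [show ufst (enc a) ++ usnd (enc a) = a.1.val ++ a.2.val by simp [enc_prod']] at this
  exact this.comp (hf.mk hg)

@[fun_prop] theorem PT.fst {f : α → β × γ} (hf : PT f) : PT (fun a => (f a).1) :=
  (PT.bfst.comp hf.raw).recast' fun a => by simp [Bits.fst, enc_prod']
@[fun_prop] theorem PT.snd {f : α → β × γ} (hf : PT f) : PT (fun a => (f a).2) :=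
  (PT.bsnd.comp hf.raw).recast' fun a => by simp [Bits.snd, enc_prod']

/-- the first bit, as a Boolean -/
def Bits.hd (x : Bits) : Bool := x.val.headD false
def Bits.isNil (x : Bits) : Bool := x.val.isEmpty

theorem PT.case3_const (e t f : β) : PT (fun x : Bits => x.case3 e t f) := by
  refine PT.mk' (.case 0 (.seq (clr 0 1 2) (pushw 0 (enc e))) (.seq (clr 0 1 2) (pushw 0 (enc t)))
    (.seq (clr 0 1 2) (pushw 0 (enc f))))
    (t := fun x => 7 * sz x + (3 + sz e + sz t + sz f))
    (((PB.const 7).mul PB.sz).add (PB.const _)) fun x => ?_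
  unfold Bits.case3
  rcases h : x.val.head? with _ | _ | _
  · exact (Run.caseE (by simpa using h) (comp_const _ _)).mono (by simp [sz]; omega)
  · exact (Run.caseF (by simpa using h) (comp_const _ _)).mono (by simp [sz]; omega)
  · exact (Run.caseT (by simpa using h) (comp_const _ _)).mono (by simp [sz]; omega)

@[fun_prop] theorem PT.bhd : PT Bits.hd :=
  (PT.case3_const false true false).of_eq fun ⟨x⟩ => by
    rcases x with _ | ⟨_ | _, _⟩ <;> rfl
@[fun_prop] theorem PT.bisNil : PT Bits.isNil :=
  (PT.case3_const true false false).of_eq fun ⟨x⟩ => by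
    rcases x with _ | ⟨_ | _, _⟩ <;> rfl

@[fun_prop] theorem PT.cond {c : α → Bool} {f g : α → β} (hc : PT c) (hf : PT f) (hg : PT g) :
    PT (fun a => cond (c a) (f a) (g a)) := by
  have h0 : PT (fun a => (NP.raw (c a)).app (NP.raw a)) := by fun_prop
  obtain ⟨p0, q0, h0⟩ := h0
  obtain ⟨p, q, h⟩ := hf
  obtain ⟨p', q', h'⟩ := hg
  refine PT.mk' (.seq p0 (.case 0 .skip (.seq (.pop 0) p) (.seq (.pop 0) p')))
    ((PB.sz.eval q0).add ((PB.const 2).add ((PB.sz.eval q).add (PB.sz.eval q')))) fun a => ?_
  refine Run.seq (h0 a) ?_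
  cases hca : c a
  · simp only [hca]
    exact (Run.caseF (by simp [Bits.app]) (Run.seq (comp_pop (false :: enc a)) (h' a))).mono
      (by omega)
  · simp only [hca]
    exact (Run.caseT (by simp [Bits.app]) (Run.seq (comp_pop (true :: enc a)) (h a))).mono
      (by omega)

@[fun_prop] theorem PT.ite {c : α → Prop} [DecidablePred c] {f g : α → β}
    (hc : PT fun a => decide (c a)) (hf : PT f) (hg : PT g) :
    PT (fun a => if c a then f a else g a) :=
  (PT.cond hc hf hg).of_eq fun a => by by_cases h : c a <;> simp [h]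

/-- bounded iteration; the number of rounds is the size of the code of `c a` -/
theorem PT.iterSz {step : α → σ → σ} (hs : PT fun p : α × σ => step p.1 p.2) {c : α → γ}
    (hc : PT c) {init : α → σ} (hi : PT init) {B : α → ℕ} (hB : PB B)
    (hb : ∀ a, ∀ i ≤ sz (c a), sz ((step a)^[i] (init a)) ≤ B a) :
    PT fun a => (step a)^[sz (c a)] (init a) := by
  have h1 : PT fun p : α × σ => (p.1, step p.1 p.2) := by fun_prop
  have h0 : PT fun a => (c a, (a, init a)) := by fun_prop
  have hcb := hc.pb
  obtain ⟨p, q, h⟩ := h1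
  obtain ⟨p0, q0, h0⟩ := h0
  have hB' : PB fun a => 2 * sz a + 1 + B a := (((PB.const 2).mul PB.sz).add (PB.const 1)).add hB
  have : PT fun a => (a, (step a)^[sz (c a)] (init a)) := by
    refine PT.mk' (.seq p0 (iterP p)) (t := fun a => q0.eval (sz a) +
      (sz (c a) * (q.eval (2 * sz a + 1 + B a) + 2) +
        50 * (sz (c a) + (2 * sz a + 1 + B a) + (2 * sz a + 1 + B a) + 1)))
      ((PB.sz.eval q0).add ((hcb.mul ((hB'.eval q).add (PB.const 2))).add
        ((PB.const 50).mul (((hcb.add hB').add hB').add (PB.const 1))))) fun a => ?_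
    refine Run.seq (h0 a) ?_
    have hs : ∀ i ≤ sz (c a), sz (a, (step a)^[i] (init a)) ≤ 2 * sz a + 1 + B a := fun i hi => by
      rw [sz_prod]; exact Nat.add_le_add_left (hb a i hi) _
    have := Comp.iter (p := p) (q.eval (2 * sz a + 1 + B a)) (enc (c a))
      (fun i => enc (a, (step a)^[i] (init a))) (fun i hi => by
        rw [iterate_succ_apply']
        exact (h (a, (step a)^[i] (init a))).mono (eval_mono q (hs i hi.le)))
    refine this.mono ?_
    have h1 := hs 0 (Nat.zero_le _)
    have h2 := hs _ le_rfl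
    simp only [sz] at h1 h2 ⊢
    omega
  exact this.snd

theorem PT.iterate {step : α → σ → σ} (hs : PT fun p : α × σ => step p.1 p.2) {n : α → ℕ}
    (hn : PT n) {init : α → σ} (hi : PT init) {B : α → ℕ} (hB : PB B)
    (hb : ∀ a, ∀ i ≤ n a, sz ((step a)^[i] (init a)) ≤ B a) :
    PT fun a => (step a)^[n a] (init a) := by
  simpa using PT.iterSz hs hn hi hB (by simpa using hb)

/-! ### Booleans -/

@[fun_prop] theorem PT.and {f g : α → Bool} (hf : PT f) (hg : PT g) : PT fun a => f a && g a :=
  (PT.cond hf hg (PT.const false)).of_eq fun a => by cases f a <;> rfl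
@[fun_prop] theorem PT.or {f g : α → Bool} (hf : PT f) (hg : PT g) : PT fun a => f a || g a :=
  (PT.cond hf (PT.const true) hg).of_eq fun a => by cases f a <;> rfl
@[fun_prop] theorem PT.not {f : α → Bool} (hf : PT f) : PT fun a => !f a :=
  (PT.cond hf (PT.const false) (PT.const true)).of_eq fun a => by cases f a <;> rfl
@[fun_prop] theorem PT.xor {f g : α → Bool} (hf : PT f) (hg : PT g) : PT fun a => xor (f a) (g a) :=
  (PT.cond hf hg.not hg).of_eq fun a => by cases f a <;> simp

/-! ### Lists, basics -/

@[fun_prop] theorem PT.cons {f : α → β} {l : α → List β} (hf : PT f) (hl : PT l) :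
    PT fun a => f a :: l a := (hf.mk hl).recast' fun _ => rfl
@[fun_prop] theorem PT.append {l l' : α → List β} (hl : PT l) (hl' : PT l') :
    PT fun a => l a ++ l' a := (hl.raw.bapp hl'.raw).recast' fun a => by simp [Bits.app, enc_append]
@[fun_prop] theorem PT.tail {l : α → List β} (hl : PT l) : PT fun a => (l a).tail :=
  (PT.bsnd.comp hl.raw).recast' fun a => by cases l a <;> simp [Bits.snd, usnd]
@[fun_prop] theorem PT.isEmpty {l : α → List β} (hl : PT l) : PT fun a => (l a).isEmpty :=
  (PT.bisNil.comp hl.raw).of_eq fun a => by cases l a <;> simp [Bits.isNil, pair]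
@[fun_prop] theorem PT.headD {l : α → List β} {d : α → β} (hl : PT l) (hd : PT d) :
    PT fun a => (l a).headD (d a) :=
  (PT.cond hl.isEmpty hd.raw (PT.bfst.comp hl.raw)).recast' fun a => by
    cases l a <;> simp [Bits.fst]
@[fun_prop] theorem PT.some {f : α → β} (hf : PT f) : PT fun a => some (f a) :=
  (hf.cons (PT.const [])).recast' fun _ => rfl
@[fun_prop] theorem PT.toList {o : α → Option β} (ho : PT o) : PT fun a => (o a).toList :=
  ho.recast' fun _ => rfl
@[fun_prop] theorem PT.head? {l : α → List β} (hl : PT l) : PT fun a => (l a).head? :=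
  (PT.cond hl.isEmpty hl.raw ((PT.bfst.comp hl.raw).mk (PT.const ())).raw).recast' fun a => by
    cases l a <;> simp [Bits.fst]
@[fun_prop] theorem PT.getD_opt {o : α → Option β} {d : α → β} (ho : PT o) (hd : PT d) :
    PT fun a => (o a).getD (d a) := (ho.toList.headD hd).of_eq fun a => by cases o a <;> rfl
@[fun_prop] theorem PT.isNone {o : α → Option β} (ho : PT o) : PT fun a => (o a).isNone :=
  ho.toList.isEmpty.of_eq fun a => by cases o a <;> rfl
@[fun_prop] theorem PT.isSome {o : α → Option β} (ho : PT o) : PT fun a => (o a).isSome :=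
  ho.isNone.not.of_eq fun a => by cases o a <;> rfl
@[fun_prop] theorem PT.elim {o : α → Option β} {n : α → γ} {s : α → β → γ} (ho : PT o) (hn : PT n)
    (hs : PT fun p : α × β => s p.1 p.2) : PT fun a => (o a).elim (n a) (s a) := by
  by_cases h : Nonempty β
  · obtain ⟨d⟩ := h
    exact (PT.cond ho.isNone hn (hs.comp (PT.id'.mk (ho.getD_opt (PT.const d))))).of_eq fun a => by
      cases o a <;> rfl
  · exact hn.of_eq fun a => by
      cases o a with
      | none => rfl
      | some b => exact (h ⟨b⟩).elim

/-! ### Unary numbers, basics -/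

@[fun_prop] theorem PT.add {f g : α → ℕ} (hf : PT f) (hg : PT g) : PT fun a => f a + g a :=
  (hf.raw.bapp hg.raw).recast' fun a => by simp [Bits.app]
@[fun_prop] theorem PT.succ {f : α → ℕ} (hf : PT f) : PT fun a => (f a).succ := hf.add (PT.const 1)
@[fun_prop] theorem PT.pred {f : α → ℕ} (hf : PT f) : PT fun a => (f a).pred :=
  (PT.btail.comp hf.raw).recast' fun a => by simp [Bits.tail]
@[fun_prop] theorem PT.sz {f : α → β} (hf : PT f) : PT fun a => sz (f a) := by
  have := PT.iterSz (step := fun (_ : α) (n : ℕ) => n + 1) (by fun_prop) hf (PT.const 0) hf.pb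
    (fun a i hi => by simpa using hi)
  simpa using this
@[fun_prop] theorem PT.sub {f g : α → ℕ} (hf : PT f) (hg : PT g) : PT fun a => f a - g a := by
  have e : ∀ i n : ℕ, Nat.pred^[i] n = n - i := fun i n => by
    induction i with
    | zero => rfl
    | succ i ih => rw [iterate_succ_apply', ih]; rfl
  exact (PT.iterate (step := fun (_ : α) (n : ℕ) => n.pred) (by fun_prop) hg hf hf.nat_pb
    (fun a i hi => by rw [sz_nat, e]; omega)).of_eq fun a => e _ _
@[fun_prop] theorem PT.mul {f g : α → ℕ} (hf : PT f) (hg : PT g) : PT fun a => f a * g a := by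
  have e : ∀ m i : ℕ, (fun n => n + m)^[i] 0 = i * m := fun m i => by
    induction i with
    | zero => simp
    | succ i ih => rw [iterate_succ_apply', ih]; ring
  exact (PT.iterate (step := fun (a : α) (n : ℕ) => n + g a) (by fun_prop) hf (PT.const 0)
    (hf.nat_pb.mul hg.nat_pb)
    (fun a i hi => by rw [sz_nat, e]; exact Nat.mul_le_mul_right _ hi)).of_eq fun a => e _ _
@[fun_prop] theorem PT.le {f g : α → ℕ} (hf : PT f) (hg : PT g) : PT fun a => decide (f a ≤ g a) :=
  (PT.bisNil.comp (hf.sub hg).raw).of_eq fun a => by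
    by_cases h : f a ≤ g a
    · simp [Bits.isNil, h]
    · simp [Bits.isNil, h]; omega
@[fun_prop] theorem PT.lt {f g : α → ℕ} (hf : PT f) (hg : PT g) : PT fun a => decide (f a < g a) :=
  PT.le hf.succ hg

/-! ### Folds -/

theorem PT.foldl {f : α → σ → β → σ} (hf : PT fun p : α × σ × β => f p.1 p.2.1 p.2.2)
    {l : α → List β} (hl : PT l) {init : α → σ} (hi : PT init) {B : α → ℕ} (hB : PB B)
    (hb : ∀ a k, NP.sz (((l a).take k).foldl (f a) (init a)) ≤ B a) :
    PT fun a => (l a).foldl (f a) (init a) := by
  let step : α → List β × σ → List β × σ := fun a s =>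
    s.1.head?.elim s (fun x => (s.1.tail, f a s.2 x))
  have hs : PT fun p : α × (List β × σ) => step p.1 p.2 := by
    refine PT.elim (by fun_prop) (by fun_prop) (PT.mk (by fun_prop) ?_)
    exact hf.comp (g := fun p : (α × (List β × σ)) × β => (p.1.1, p.1.2.2, p.2)) (by fun_prop)
  have e : ∀ a i (l : List β) s, (step a)^[i] (l, s) = (l.drop i, (l.take i).foldl (f a) s) := by
    intro a i
    induction i with
    | zero => intro l s; rfl
    | succ i ih =>
      intro l s
      rw [iterate_succ_apply]
      cases l with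
      | nil => simpa [step] using ih [] s
      | cons x l => simpa [step] using ih l (f a s x)
  have := PT.iterSz hs hl (hl.mk hi) ((((PB.const 2).mul hl.pb).add (PB.const 1)).add hB)
    (fun a i _ => by
      rw [e, sz_prod]
      have := sz_le_of_sublist (List.drop_sublist i (l a))
      have := hb a i
      simp only at *
      omega)
  exact this.snd.of_eq fun a => by rw [e, List.take_of_length_le (length_le_sz _)]

@[fun_prop] theorem PT.flatMap {f : α → β → List γ} {l : α → List β}
    (hf : PT fun p : α × β => f p.1 p.2) (hl : PT l) : PT fun a => (l a).flatMap (f a) := by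
  have e : ∀ a (l : List β) s, l.foldl (fun acc x => acc ++ f a x) s = s ++ l.flatMap (f a) := by
    intro a l
    induction l with
    | nil => simp
    | cons x l ih => simp [ih]
  obtain ⟨q, hq⟩ := hf.pb
  refine (PT.foldl (f := fun a acc x => acc ++ f a x) (PT.append (by fun_prop)
    (hf.comp (g := fun p : α × List γ × β => (p.1, p.2.2)) (by fun_prop))) hl (PT.const [])
    (hl.pb.mul (((((PB.const 2).mul PB.sz).add (PB.const 1)).add hl.pb).eval q)) fun a k => ?_).of_eq
    fun a => by simp [e]
  rw [e, List.nil_append]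
  have : ∀ l' : List β, (∀ x ∈ l', x ∈ l a) →
      NP.sz (l'.flatMap (f a)) ≤ l'.length * q.eval (2 * NP.sz a + 1 + NP.sz (l a)) := by
    intro l' h
    induction l' with
    | nil => simp
    | cons x l' ih =>
      have h1 := ih fun y hy => h y (List.mem_cons_of_mem _ hy)
      have h2 := hq (a, x)
      have h3 : q.eval (NP.sz (a, x)) ≤ q.eval (2 * NP.sz a + 1 + NP.sz (l a)) := eval_mono q (by
        rw [sz_prod]; exact Nat.add_le_add_left (sz_le_of_mem (h x List.mem_cons_self)) _)
      rw [List.flatMap_cons, sz_append, List.length_cons]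
      simp only at h2
      nlinarith
  refine (this _ fun x hx => List.mem_of_mem_take hx).trans (Nat.mul_le_mul_right _ ?_)
  exact (List.length_take_le' _ _).trans (length_le_sz _)

@[fun_prop] theorem PT.map {f : α → β → γ} {l : α → List β}
    (hf : PT fun p : α × β => f p.1 p.2) (hl : PT l) : PT fun a => (l a).map (f a) :=
  (PT.flatMap (f := fun a x => [f a x]) (hf.cons (PT.const [])) hl).of_eq fun a => by
    simp [List.flatMap_singleton', List.map_eq_flatMap]

@[fun_prop] theorem PT.filter {f : α → β → Bool} {l : α → List β}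
    (hf : PT fun p : α × β => f p.1 p.2) (hl : PT l) : PT fun a => (l a).filter (f a) :=
  (PT.flatMap (f := fun a x => _root_.cond (f a x) [x] []) (by fun_prop) hl).of_eq fun a => by
    induction l a with
    | nil => rfl
    | cons x l ih => cases h : f a x <;> simp [h, ih]

@[fun_prop] theorem PT.filterMap {f : α → β → Option γ} {l : α → List β}
    (hf : PT fun p : α × β => f p.1 p.2) (hl : PT l) : PT fun a => (l a).filterMap (f a) :=
  (PT.flatMap (f := fun a x => (f a x).toList) hf.toList hl).of_eq fun a => by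
    induction l a with
    | nil => rfl
    | cons x l ih => cases h : f a x <;> simp [h, ih]

@[fun_prop] theorem PT.flatten {l : α → List (List β)} (hl : PT l) : PT fun a => (l a).flatten :=
  (PT.flatMap (f := fun _ x => x) (by fun_prop) hl).of_eq fun a => by simp [List.flatMap_def]

@[fun_prop] theorem PT.sum {l : α → List ℕ} (hl : PT l) : PT fun a => (l a).sum := by
  have h : PT fun a => ((l a).flatMap fun n => [n]).length := by
    have := PT.foldl (f := fun (_ : α) (n : ℕ) (_ : ℕ) => n + 1) (by fun_prop) hl (PT.const 0) hl.pb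
      (fun a k => by
        have : ∀ (l : List ℕ) s, l.foldl (fun n _ => n + 1) s = s + l.length := by
          intro l; induction l with
          | nil => simp
          | cons x l ih => intro s; simp [ih]; omega
        rw [this, sz_nat]; have := length_le_sz (l a); simp; omega)
    refine this.of_eq fun a => ?_
    have : ∀ (l : List ℕ) s, l.foldl (fun n _ => n + 1) s = s + l.length := by
      intro l; induction l with
      | nil => simp
      | cons x l ih => intro s; simp [ih]; omega
    simp [this]
  have e : ∀ (l : List ℕ) s, l.foldl (fun n x => n + x) s = s + l.sum := by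
    intro l; induction l with
    | nil => simp
    | cons x l ih => intro s; simp [ih]; omega
  have e2 : ∀ l : List ℕ, l.sum ≤ NP.sz l := by
    intro l; induction l with
    | nil => simp
    | cons x l ih => rw [sz_cons, sz_nat, List.sum_cons]; omega
  refine (PT.foldl (f := fun (_ : α) (n : ℕ) (x : ℕ) => n + x) (by fun_prop) hl (PT.const 0) hl.pb
    (fun a k => ?_)).of_eq fun a => by simp [e]
  rw [e, sz_nat, Nat.zero_add]
  exact (e2 _).trans (sz_le_of_sublist (List.take_sublist _ _))

@[fun_prop] theorem PT.length {l : α → List β} (hl : PT l) : PT fun a => (l a).length :=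
  (PT.sum (PT.map (f := fun _ _ => 1) (PT.const 1) hl)).of_eq fun a => by simp

@[fun_prop] theorem PT.countP {f : α → β → Bool} {l : α → List β}
    (hf : PT fun p : α × β => f p.1 p.2) (hl : PT l) : PT fun a => (l a).countP (f a) :=
  (PT.filter hf hl).length.of_eq fun a => by simp [List.countP_eq_length_filter]

@[fun_prop] theorem PT.any {f : α → β → Bool} {l : α → List β}
    (hf : PT fun p : α × β => f p.1 p.2) (hl : PT l) : PT fun a => (l a).any (f a) :=
  (PT.filter hf hl).isEmpty.not.of_eq fun a => by
    induction l a with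
    | nil => rfl
    | cons x l ih => cases h : f a x <;> simp [h, ← ih]

@[fun_prop] theorem PT.all {f : α → β → Bool} {l : α → List β}
    (hf : PT fun p : α × β => f p.1 p.2) (hl : PT l) : PT fun a => (l a).all (f a) :=
  (PT.any (f := fun a x => !f a x) hf.not hl).not.of_eq fun a => by
    simp [List.all_eq_not_any_not]

@[fun_prop] theorem PT.drop {l : α → List β} {n : α → ℕ} (hn : PT n) (hl : PT l) :
    PT fun a => (l a).drop (n a) := by
  have e : ∀ i (l : List β), List.tail^[i] l = l.drop i := fun i l => by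
    induction i with
    | zero => rfl
    | succ i ih => rw [iterate_succ_apply', ih]; simp
  exact (PT.iterate (step := fun (_ : α) (l : List β) => l.tail) (by fun_prop) hn hl hl.pb
    (fun a i hi => by rw [e]; exact sz_le_of_sublist (List.drop_sublist _ _))).of_eq fun a => e _ _

@[fun_prop] theorem PT.getElem? {l : α → List β} {n : α → ℕ} (hl : PT l) (hn : PT n) :
    PT fun a => (l a)[n a]? := (PT.drop hn hl).head?.of_eq fun a => by simp

@[fun_prop] theorem PT.getD {l : α → List β} {n : α → ℕ} {d : α → β} (hl : PT l) (hn : PT n)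
    (hd : PT d) : PT fun a => (l a).getD (n a) (d a) :=
  ((PT.getElem? hl hn).getD_opt hd).of_eq fun a => by simp

@[fun_prop] theorem PT.range {n : α → ℕ} (hn : PT n) : PT fun a => List.range (n a) := by
  have e : ∀ i, (fun l : List ℕ => l ++ [l.length])^[i] [] = List.range i := fun i => by
    induction i with
    | zero => rfl
    | succ i ih => rw [iterate_succ_apply', ih]; simp [List.range_succ]
  refine (PT.iterate (step := fun (_ : α) (l : List ℕ) => l ++ [l.length]) (by fun_prop) hn
    (PT.const []) (hn.nat_pb.mul (((PB.const 2).mul hn.nat_pb).add (PB.const 1)))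
    (fun a i hi => ?_)).of_eq fun a => e _
  rw [e]
  refine (sz_le_of_forall (B := n a) fun x hx => ?_).trans ?_
  · rw [sz_nat]; simp at hx; omega
  · rw [List.length_range]; exact Nat.mul_le_mul_right _ hi

@[fun_prop] theorem PT.replicate {n : α → ℕ} {x : α → β} (hn : PT n) (hx : PT x) :
    PT fun a => List.replicate (n a) (x a) :=
  (PT.map (f := fun a _ => x a) (by fun_prop) hn.range).of_eq fun a => by simp

@[fun_prop] theorem PT.take {l : α → List β} {n : α → ℕ} (hn : PT n) (hl : PT l) :
    PT fun a => (l a).take (n a) :=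
  (PT.filterMap (f := fun a i => (l a)[i]?) (by fun_prop) hn.range).of_eq fun a => by
    induction n a with
    | zero => simp
    | succ n ih =>
      rw [List.range_succ, List.filterMap_append, ih, List.take_add_one]
      cases h : (l a)[n]? <;> simp [h]

@[fun_prop] theorem PT.reverse {l : α → List β} (hl : PT l) : PT fun a => (l a).reverse := by
  have e : ∀ (l s : List β), l.foldl (fun acc x => x :: acc) s = l.reverse ++ s := by
    intro l; induction l with
    | nil => simp
    | cons x l ih => simp
  have e2 : ∀ l : List β, NP.sz l.reverse = NP.sz l := by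
    intro l; induction l with
    | nil => simp
    | cons x l ih => rw [List.reverse_cons, sz_append, ih, sz_cons, sz_cons, sz_nil]; omega
  refine (PT.foldl (f := fun (_ : α) (acc : List β) (x : β) => x :: acc) (by fun_prop) hl
    (PT.const []) hl.pb (fun a k => ?_)).of_eq fun a => by simp
  rw [e, List.append_nil, e2]
  exact sz_le_of_sublist (List.take_sublist _ _)

/-! ### Raw strings versus lists of Booleans; equality tests -/

@[fun_prop] theorem PT.bval {x : α → Bits} (hx : PT x) : PT fun a => (x a).val := by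
  have e : ∀ (i) (y : List Bool), (Bits.tail^[i] ⟨y⟩) = ⟨y.drop i⟩ := fun i y => by
    induction i with
    | zero => rfl
    | succ i ih => rw [iterate_succ_apply', ih]; simp [Bits.tail]
  have h : PT fun p : α × ℕ => Bits.tail^[p.2] (x p.1) :=
    PT.iterate (step := fun _ (y : Bits) => y.tail) (by fun_prop) (by fun_prop) (by fun_prop)
      (hx.comp (g := fun p : α × ℕ => p.1) (by fun_prop)).pb fun p i _ => by
        rw [show x p.1 = ⟨(x p.1).val⟩ from rfl, e]; simp [NP.sz]
  refine (PT.map (f := fun a i => (Bits.tail^[i] (x a)).hd) (PT.bhd.comp h) hx.sz.range).of_eq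
    fun a => ?_
  apply List.ext_getElem
  · simp [NP.sz]
  · intro i h1 h2
    have := e i (x a).val
    rw [show (⟨(x a).val⟩ : Bits) = x a from rfl] at this
    simp [this, Bits.hd, List.headD_eq_head?_getD, h2]

@[fun_prop] theorem PT.bmk {l : α → List Bool} (hl : PT l) : PT fun a => Bits.mk (l a) := by
  have e : ∀ (l : List Bool) (s : Bits),
      l.foldl (fun acc x => acc.app (NP.raw x)) s = ⟨s.val ++ l⟩ := by
    intro l; induction l with
    | nil => simp
    | cons x l ih => intro s; rw [List.foldl_cons, ih]; simp [Bits.app]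
  refine (PT.foldl (f := fun (_ : α) (acc : Bits) (x : Bool) => acc.app (NP.raw x)) (by fun_prop) hl
    (PT.const ⟨[]⟩) hl.pb (fun a k => ?_)).of_eq fun a => by simp [e]
  rw [e]
  have := length_le_sz (l a)
  simp [NP.sz] at this ⊢
  omega

/-- types whose encoding is injective -/
class EncInj (α : Type) [Enc α] : Prop where
  inj : Injective (enc : α → List Bool)

theorem enc_inj [EncInj α] {a b : α} : enc a = enc b ↔ a = b := EncInj.inj.eq_iff

theorem pair_inj {x y x' y'} (h : pair x y = pair x' y') : x = x' ∧ y = y' :=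
  ⟨by simpa using congrArg ufst h, by simpa using congrArg usnd h⟩

theorem pair_ne_nil (x y) : pair x y ≠ [] := by simp [pair]

instance : EncInj Unit := ⟨fun _ _ _ => rfl⟩
instance : EncInj Bool := ⟨fun _ _ h => by simpa using h⟩
instance : EncInj ℕ := ⟨fun _ _ h => by simpa using congrArg List.length h⟩
instance : EncInj Bits := ⟨fun ⟨_⟩ ⟨_⟩ h => by simpa using h⟩
instance [EncInj α] [EncInj β] : EncInj (α × β) :=
  ⟨fun _ _ h => Prod.ext (EncInj.inj (pair_inj h).1) (EncInj.inj (pair_inj h).2)⟩
instance [EncInj α] : EncInj (List α) := ⟨fun l => by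
  induction l with
  | nil => intro l' h; cases l' with
    | nil => rfl
    | cons b l' => exact (pair_ne_nil _ _ h.symm).elim
  | cons a l ih => intro l' h; cases l' with
    | nil => exact (pair_ne_nil _ _ h).elim
    | cons b l' => rw [EncInj.inj (pair_inj h).1, ih (pair_inj h).2]⟩
instance [EncInj α] : EncInj (Option α) := ⟨fun a b h => by
  have : a.toList = b.toList := EncInj.inj h
  cases a <;> cases b <;> simp_all⟩

@[fun_prop] theorem PT.eq [EncInj β] [DecidableEq β] {f g : α → β} (hf : PT f) (hg : PT g) :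
    PT fun a => decide (f a = g a) := by
  have h1 : PT fun a => enc (f a) := hf.raw.bval
  have h2 : PT fun a => enc (g a) := hg.raw.bval
  have : ∀ F G : α → List Bool, PT F → PT G → PT fun a => (decide ((F a).length ≤ (G a).length) &&
      decide ((G a).length ≤ (F a).length)) &&
      (List.range (F a).length).all fun i =>
        !Bool.xor ((F a).getD i false) ((G a).getD i false) := by
    intro F G hF hG; fun_prop
  refine (this _ _ h1 h2).of_eq fun a => ?_
  rw [Bool.eq_iff_iff]
  simp only [Bool.and_eq_true, decide_eq_true_eq, List.all_eq_true, List.mem_range]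
  rw [← enc_inj]
  constructor
  · rintro ⟨⟨h1, h2⟩, h3⟩
    apply List.ext_getElem (le_antisymm h1 h2)
    intro i hi hi'
    have := h3 i hi
    simpa [hi, hi'] using this
  · intro h; simp [h]

@[fun_prop] theorem PT.beq [EncInj β] [BEq β] [LawfulBEq β] {f g : α → β} (hf : PT f) (hg : PT g) :
    PT fun a => f a == g a := by
  classical
  exact (PT.eq hf hg).of_eq fun a => by by_cases h : f a = g a <;> simp [h]

@[fun_prop] theorem PT.bne [EncInj β] [BEq β] [LawfulBEq β] {f g : α → β} (hf : PT f) (hg : PT g) :
    PT fun a => f a != g a := (PT.beq hf hg).not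

theorem PT.polyTime {f : Bits → Bits} (h : PT f) : PolyTime fun x => (f ⟨x⟩).val :=
  let ⟨p, q, hq⟩ := h; polyTime_of_prog _ p q fun x => hq ⟨x⟩

end Pool.Agent.H38.NP
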