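import Pool.Agent.H38.NP.Defs

/-!
Structured programs on registers (stacks of bits) and their compilation to `Turing.FinTM2`.
-/

namespace Pool.Agent.H38.NP

open Function

/-- structured programs -/
inductive Prog
  | skip
  | push (r : ℕ) (b : Bool)
  | pop (r : ℕ)
  | seq (p q : Prog)
  | case (r : ℕ) (pe pt pf : Prog)
  | loop (r : ℕ) (c : Option Bool → Bool) (p : Prog)

abbrev Store := ℕ → List Bool

/-- big-step semantics with exact cost -/
inductive Exec : Prog → Store → Store → ℕ → Prop
  | skip (s) : Exec .skip s s 1
  | push (r b s) : Exec (.push r b) s (update s r (b :: s r)) 1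
  | pop (r s) : Exec (.pop r) s (update s r (s r).tail) 1
  | seq {p q s s' s'' t t'} : Exec p s s' t → Exec q s' s'' t' → Exec (.seq p q) s s'' (t + t')
  | caseE {r pe pt pf s s' t} : (s r).head? = none → Exec pe s s' t →
      Exec (.case r pe pt pf) s s' (1 + t)
  | caseT {r pe pt pf s s' t} : (s r).head? = some true → Exec pt s s' t →
      Exec (.case r pe pt pf) s s' (1 + t)
  | caseF {r pe pt pf s s' t} : (s r).head? = some false → Exec pf s s' t →
      Exec (.case r pe pt pf) s s' (1 + t)
  | loopN {r c p s} : c (s r).head? = false → Exec (.loop r c p) s s 1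
  | loopY {r c p s s' s'' t t'} : c (s r).head? = true → Exec p s s' t →
      Exec (.loop r c p) s' s'' t' → Exec (.loop r c p) s s'' (1 + t + t')

/-- flat instructions -/
inductive Ins (L : Type)
  | push (r : ℕ) (b : Bool) (n : L)
  | pop (r : ℕ) (n : L)
  | test (r : ℕ) (g : Option Bool → L)

def Ins.map {L L' : Type} (φ : L → L') : Ins L → Ins L'
  | .push r b n => .push r b (φ n)
  | .pop r n => .pop r (φ n)
  | .test r g => .test r (fun o => φ (g o))

def Ins.run {L : Type} : Ins L → Store → L × Store
  | .push r b n, s => (n, update s r (b :: s r))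
  | .pop r n, s => (n, update s r (s r).tail)
  | .test r g, s => (g (s r).head?, s)

def Ins.reg {L : Type} : Ins L → ℕ
  | .push r _ _ => r
  | .pop r _ => r
  | .test r _ => r

theorem Ins.run_map {L L' : Type} (φ : L → L') (i : Ins L) (s : Store) :
    (i.map φ).run s = (φ (i.run s).1, (i.run s).2) := by
  cases i <;> rfl

inductive Reach {L : Type} (M : L → Ins (Option L)) :
    Option L → Store → Option L → Store → ℕ → Prop
  | refl (a s) : Reach M a s a s 0
  | step {l s b s' n} : Reach M ((M l).run s).1 ((M l).run s).2 b s' n →
      Reach M (some l) s b s' (n + 1)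

theorem Reach.trans {L : Type} {M : L → Ins (Option L)} {a s b s' c s'' n m}
    (h : Reach M a s b s' n) (h' : Reach M b s' c s'' m) : Reach M a s c s'' (n + m) := by
  induction h with
  | refl => simpa using h'
  | step _ ih =>
    have := Reach.step (ih h')
    rwa [Nat.add_right_comm] at this

theorem Reach.embed {L L' : Type} {M : L → Ins (Option L)} {M' : L' → Ins (Option L')}
    (φ : Option L → Option L') (g : L → L') (hφ : ∀ l, φ (some l) = some (g l))
    (hM : ∀ l, M' (g l) = (M l).map φ) {a s b s' n} (h : Reach M a s b s' n) :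
    Reach M' (φ a) s (φ b) s' n := by
  induction h with
  | refl => exact Reach.refl _ _
  | step _ ih =>
    rw [hφ]
    apply Reach.step
    rw [hM, Ins.run_map]
    exact ih

theorem Reach.one {L : Type} {M : L → Ins (Option L)} {l s b s'}
    (h : (M l).run s = (b, s')) : Reach M (some l) s b s' 1 := by
  apply Reach.step
  rw [h]
  exact Reach.refl _ _

def Lab : Prog → Type
  | .skip => Unit
  | .push _ _ => Unit
  | .pop _ => Unit
  | .seq p q => Lab p ⊕ Lab q
  | .case _ a b c => Option (Lab a ⊕ Lab b ⊕ Lab c)
  | .loop _ _ p => Option (Lab p)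

instance labFin : (p : Prog) → Fintype (Lab p)
  | .skip => inferInstanceAs (Fintype Unit)
  | .push _ _ => inferInstanceAs (Fintype Unit)
  | .pop _ => inferInstanceAs (Fintype Unit)
  | .seq p q => letI := labFin p; letI := labFin q; inferInstanceAs (Fintype (Lab p ⊕ Lab q))
  | .case _ a b c => letI := labFin a; letI := labFin b; letI := labFin c
      inferInstanceAs (Fintype (Option (Lab a ⊕ Lab b ⊕ Lab c)))
  | .loop _ _ p => letI := labFin p; inferInstanceAs (Fintype (Option (Lab p)))

def start : (p : Prog) → Lab p
  | .skip => ()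
  | .push _ _ => ()
  | .pop _ => ()
  | .seq p _ => Sum.inl (start p)
  | .case _ _ _ _ => none
  | .loop _ _ _ => none

def seqL (p q : Prog) : Option (Lab p) → Option (Lab p ⊕ Lab q)
  | none => some (Sum.inr (start q))
  | some l => some (Sum.inl l)

def loopL (p : Prog) : Option (Lab p) → Option (Option (Lab p))
  | none => some none
  | some l => some (some l)

def ins : (p : Prog) → Lab p → Ins (Option (Lab p))
  | .skip => fun _ => .test 0 (fun _ => none)
  | .push r b => fun _ => .push r b none
  | .pop r => fun _ => .pop r none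
  | .seq p q => fun l => match l with
      | Sum.inl l => (ins p l).map (seqL p q)
      | Sum.inr l => (ins q l).map (Option.map Sum.inr)
  | .case r a b c => fun l => match l with
      | none => .test r (fun o => match o with
          | none => some (some (Sum.inl (start a)))
          | some true => some (some (Sum.inr (Sum.inl (start b))))
          | some false => some (some (Sum.inr (Sum.inr (start c)))))
      | some (Sum.inl l) => (ins a l).map (Option.map fun l => some (Sum.inl l))
      | some (Sum.inr (Sum.inl l)) =>
          (ins b l).map (Option.map fun l => some (Sum.inr (Sum.inl l)))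
      | some (Sum.inr (Sum.inr l)) =>
          (ins c l).map (Option.map fun l => some (Sum.inr (Sum.inr l)))
  | .loop r c p => fun l => match l with
      | none => .test r (fun o => if c o then some (some (start p)) else none)
      | some l => (ins p l).map (loopL p)

theorem Exec.reach {p s s' t} (h : Exec p s s' t) :
    Reach (ins p) (some (start p)) s none s' t := by
  induction h with
  | skip s => exact Reach.one rfl
  | push r b s => exact Reach.one rfl
  | pop r s => exact Reach.one rfl
  | @seq p q s s' s'' t t' _ _ ih ih' =>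
    have h1 := Reach.embed (M' := ins (.seq p q)) (seqL p q) Sum.inl (fun _ => rfl)
      (fun _ => rfl) ih
    have h2 := Reach.embed (M' := ins (.seq p q)) (Option.map Sum.inr) Sum.inr (fun _ => rfl)
      (fun _ => rfl) ih'
    exact h1.trans h2
  | @caseE r pe pt pf s s' t hs _ ih =>
    have h2 := Reach.embed (M' := ins (.case r pe pt pf))
      (Option.map fun l => some (Sum.inl l)) (fun l => some (Sum.inl l)) (fun _ => rfl)
      (fun _ => rfl) ih
    refine Reach.trans (Reach.one ?_) h2
    simp only [ins, start, Ins.run, hs]
    rfl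
  | @caseT r pe pt pf s s' t hs _ ih =>
    have h2 := Reach.embed (M' := ins (.case r pe pt pf))
      (Option.map fun l => some (Sum.inr (Sum.inl l))) (fun l => some (Sum.inr (Sum.inl l)))
      (fun _ => rfl) (fun _ => rfl) ih
    refine Reach.trans (Reach.one ?_) h2
    simp only [ins, start, Ins.run, hs]
    rfl
  | @caseF r pe pt pf s s' t hs _ ih =>
    have h2 := Reach.embed (M' := ins (.case r pe pt pf))
      (Option.map fun l => some (Sum.inr (Sum.inr l))) (fun l => some (Sum.inr (Sum.inr l)))
      (fun _ => rfl) (fun _ => rfl) ih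
    refine Reach.trans (Reach.one ?_) h2
    simp only [ins, start, Ins.run, hs]
    rfl
  | @loopN r c p s hs =>
    refine Reach.one ?_
    simp [ins, start, Ins.run, hs]
  | @loopY r c p s s' s'' t t' hs _ _ ih ih' =>
    have h2 := Reach.embed (M' := ins (.loop r c p)) (loopL p) some
      (fun _ => rfl) (fun _ => rfl) ih
    refine Reach.trans (Reach.trans (Reach.one ?_) h2) ih'
    simp only [ins, start, Ins.run, hs, loopL]
    rfl

section Compile

open Turing Turing.TM2

def goS {N : ℕ} {L : Type} :
    Option L → Stmt (fun _ : Fin (N + 1) => Bool) L (Option Bool)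
  | none => .load (fun _ => none) .halt
  | some l => .load (fun _ => none) (.goto fun _ => l)

def insS {N : ℕ} {L : Type} :
    Ins (Option L) → Stmt (fun _ : Fin (N + 1) => Bool) L (Option Bool)
  | .push r b n => .push (Fin.ofNat (N + 1) r) (fun _ => b) (goS n)
  | .pop r n => .pop (Fin.ofNat (N + 1) r) (fun v _ => v) (goS n)
  | .test r g => .peek (Fin.ofNat (N + 1) r) (fun _ o => o)
      (.branch (fun o => o.isNone) (goS (g none))
        (.branch (fun o => o.getD false) (goS (g (some true))) (goS (g (some false)))))

def cfgOf {N : ℕ} {L : Type} (a : Option L) (s : Store) :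
    Cfg (fun _ : Fin (N + 1) => Bool) L (Option Bool) :=
  ⟨a, none, fun k => s k.val⟩

theorem stepAux_goS {N : ℕ} {L : Type} (a : Option L) (v : Option Bool)
    (S : Fin (N + 1) → List Bool) :
    stepAux (goS a : Stmt (fun _ : Fin (N + 1) => Bool) L (Option Bool)) v S = ⟨a, none, S⟩ := by
  cases a <;> rfl

theorem upd_fin {N r : ℕ} (hr : r ≤ N) (s : Store) (x : List Bool) :
    update (fun k : Fin (N + 1) => s k.val) (Fin.ofNat (N + 1) r) x
      = fun k : Fin (N + 1) => update s r x k.val := by
  funext k
  have h : (Fin.ofNat (N + 1) r).val = r := by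
    simp [Fin.ofNat, Nat.mod_eq_of_lt (Nat.lt_succ_of_le hr)]
  by_cases hk : k = Fin.ofNat (N + 1) r
  · subst hk; rw [h]; simp
  · have : k.val ≠ r := fun e => hk (Fin.ext (by rw [h, e]))
    rw [update_of_ne hk, update_of_ne this]

theorem stepAux_insS {N : ℕ} {L : Type} (i : Ins (Option L)) (hr : i.reg ≤ N) (s : Store) :
    stepAux (insS i : Stmt (fun _ : Fin (N + 1) => Bool) L (Option Bool)) none
      (fun k => s k.val) = cfgOf (i.run s).1 (i.run s).2 := by
  have h : ∀ r ≤ N, (Fin.ofNat (N + 1) r).val = r := fun r hr => by
    simp [Fin.ofNat, Nat.mod_eq_of_lt (Nat.lt_succ_of_le hr)]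
  cases i with
  | push r b n =>
    simp only [insS, stepAux, stepAux_goS, Ins.run, cfgOf, h r hr]
    rw [← upd_fin (r := r) hr]
  | pop r n =>
    simp only [insS, stepAux, stepAux_goS, Ins.run, cfgOf, h r hr]
    rw [← upd_fin (r := r) hr]
  | test r g =>
    simp only [insS, stepAux, stepAux_goS, Ins.run, cfgOf, h r hr]
    rcases (s r).head? with _ | _ | _ <;> simp

theorem Reach.iter {N : ℕ} {L : Type} {M : L → Ins (Option L)} (hM : ∀ l, (M l).reg ≤ N)
    {a s b s' n} (h : Reach M a s b s' n) :
    (flip bind (TM2.step (fun l => (insS (M l) :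
      Stmt (fun _ : Fin (N + 1) => Bool) L (Option Bool)))))^[n] (some (cfgOf a s))
      = some (cfgOf b s') := by
  induction h with
  | refl => rfl
  | step _ ih =>
    rw [iterate_succ_apply, ← ih]
    congr 1
    simp only [flip, cfgOf, bind, Option.bind, TM2.step]
    rw [stepAux_insS _ (hM _)]
    rfl

/-- the store holding `a` in register 0 and `s` above it -/
def sc (a : List Bool) (s : Store) : Store
  | 0 => a
  | n + 1 => s n

def E : Store := fun _ => []

def machine (p : Prog) (N : ℕ) : FinTM2 where
  K := Fin (N + 1)
  k₀ := 0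
  k₁ := 0
  Γ _ := Bool
  Λ := Lab p
  main := start p
  σ := Option Bool
  initialState := none
  m l := insS (ins p l)

theorem polyTime_of_prog (f : List Bool → List Bool) (p : Prog) (q : Polynomial ℕ)
    (h : ∀ x, ∃ t ≤ q.eval x.length, Exec p (sc x E) (sc (f x) E) t) : PolyTime f := by
  classical
  let N := Finset.univ.sup fun l : Lab p => (ins p l).reg
  have hN : ∀ l, (ins p l).reg ≤ N := fun l =>
    Finset.le_sup (f := fun l : Lab p => (ins p l).reg) (Finset.mem_univ l)
  choose t ht using h
  have hi : ∀ x, initList (machine p N) x = cfgOf (N := N) (some (start p)) (sc x E) := by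
    intro x
    simp only [initList, cfgOf, machine]
    congr 1
    funext k
    refine Fin.cases ?_ (fun k => ?_) k
    · rfl
    · simp [sc, E]
  have hh : ∀ x, haltList (machine p N) x = cfgOf (N := N) none (sc x E) := by
    intro x
    simp only [haltList, cfgOf, machine]
    congr 1
    funext k
    refine Fin.cases ?_ (fun k => ?_) k
    · rfl
    · simp [sc, E]
  refine ⟨⟨⟨machine p N, Equiv.refl _, Equiv.refl _⟩, q, fun x => ⟨⟨t x, ?_⟩, (ht x).1⟩⟩⟩
  have := Reach.iter hN (ht x).2.reach
  simp only [id, Equiv.refl, List.map_id, Option.map_some]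
  erw [List.map_id, List.map_id, hi, hh]
  exact this

end Compile

end Pool.Agent.H38.NP
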